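import Pool.Agent.Lib.MP_0430e4_lc.YG.B3
import Pool.Agent.Lib.MP_0430e4_lc.LPLOW.Pos

/-!
Project ALLCODES, part Y1 (helper74): the Jacobi equation of the strip map in the variable `Z`.

`a0 η = AA(0)`, `b0 η = OO(0)`; `CC (1 - Z²) = b0 Z`, `OO (1 - Z²) = b0 (1 + Z²)`,
`(Z')² = a0² (1 - Z²)² + b0² Z²`.
-/

set_option autoImplicit false

open Filter Topology

namespace Pool.Agent.Lib.MP_0430e4_lc.YE

open LPLOW YG
open Complex (I)

/-- `AA(0)` -/
noncomputable def a0 (η : ℝ) : ℝ := (S (cA η) 0).re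

/-- `OO(0)` -/
noncomputable def b0 (η : ℝ) : ℝ := (S (cO η) 0).re

/-- `K = (b0 / a0)²` -/
noncomputable def KK (η : ℝ) : ℝ := (b0 η / a0 η) ^ 2

/-- the quartic of the Jacobi equation -/
def Phi (K x : ℝ) : ℝ := (1 - x ^ 2) ^ 2 + K * x ^ 2

variable {η : ℝ}

theorem S_zero_real (c : ℤ → ℝ) : S c 0 = (((S c 0).re : ℝ) : ℂ) := by
  apply Complex.ext
  · simp
  · rw [S_real_real _ (by simp)]; simp

theorem AA0 : AA η 0 = (a0 η : ℂ) := S_zero_real _

theorem OO0 : S (cO η) 0 = (b0 η : ℂ) := S_zero_real _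

theorem LL0 : LL η 0 = 0 := by
  have := LL_neg (η := η) 0
  rw [neg_zero] at this
  linear_combination this / 2

section
variable (hη : 0 < η)
include hη

theorem a0_pos : 0 < a0 η := A_zero_pos hη

theorem b0_pos : 0 < b0 η := by
  have h := LPLOW.OO_re_pos hη 0
  simpa [b0] using h

theorem KK_pos : 0 < KK η := by
  have h1 := a0_pos hη
  have h2 := b0_pos hη
  unfold KK
  positivity

theorem KK_mul : KK η * a0 η ^ 2 = b0 η ^ 2 := by
  have h1 := (a0_pos hη).ne'
  unfold KK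
  field_simp

/-- `OO + 2 CC = b0 e^{2L}` -/
theorem OC_add {s : ℂ} (hs : |s.re| < η) :
    S (cO η) s + 2 * S (cC η) s = b0 η * Complex.exp (2 * LL η s) := by
  have h := Jac.strip_const (η := η)
    (f := fun w => (S (cO η) w + 2 * S (cC η) w) * Complex.exp (-(2 * LL η w)))
    (fun w hw => by
      have h1 := (OO_hasDerivAt hη hw).add ((CC_hasDerivAt hη hw).const_mul 2)
      have h2 := ((LL_deriv hη hw).const_mul 2).neg.cexp
      refine (h1.mul h2).congr_deriv ?_
      have e : AA η w = S (cA η) w := rfl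
      rw [e]
      simp only [Pi.add_apply]
      ring) hs (v := 0) (by simpa using hη)
  simp only [cC_zero, LL0] at h
  rw [OO0] at h
  have h3 : Complex.exp (-(2 * LL η s)) * Complex.exp (2 * LL η s) = 1 := by
    rw [← Complex.exp_add, neg_add_cancel, Complex.exp_zero]
  have h4 : (S (cO η) s + 2 * S (cC η) s) * Complex.exp (-(2 * LL η s)) = b0 η := by
    rw [h]
    simp
  calc S (cO η) s + 2 * S (cC η) s
      = (S (cO η) s + 2 * S (cC η) s) * (Complex.exp (-(2 * LL η s)) * Complex.exp (2 * LL η s)) := by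
        rw [h3, mul_one]
    _ = _ := by rw [← mul_assoc, h4]

/-- `OO - 2 CC = b0 e^{-2L}` -/
theorem OC_sub {s : ℂ} (hs : |s.re| < η) :
    S (cO η) s - 2 * S (cC η) s = b0 η * Complex.exp (-(2 * LL η s)) := by
  have h := OC_add hη (s := -s) (by simpa using hs)
  rw [S_neg (cO_neg η), S_neg_odd (cC_neg η), LL_neg] at h
  rw [show -(2 * LL η s) = 2 * -LL η s by ring, ← h]
  ring

/-- `CC (1 - Z²) = b0 Z` -/
theorem CC_Z {s : ℂ} (hs : |s.re| < η) : S (cC η) s * (1 - Z η s ^ 2) = b0 η * Z η s := by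
  have h1 := OC_add hη hs
  have h2 := OC_sub hη hs
  have h3 := one_sub_Z hη hs
  rw [show -2 * LL η s = -(2 * LL η s) by ring] at h3
  have h4 : Complex.exp (-(2 * LL η s)) * Complex.exp (2 * LL η s) = 1 := by
    rw [← Complex.exp_add, neg_add_cancel, Complex.exp_zero]
  set E := Complex.exp (2 * LL η s)
  set E' := Complex.exp (-(2 * LL η s))
  have h5 : E * (1 - Z η s) = 1 + Z η s := by
    rw [h3]
    linear_combination (1 + Z η s) * h4
  have h6 : 4 * S (cC η) s = b0 η * (E - E') := by linear_combination h1 - h2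
  have h7 : (4 : ℂ) * (S (cC η) s * (1 - Z η s ^ 2)) = 4 * (b0 η * Z η s) := by
    linear_combination (1 - Z η s ^ 2) * h6 + (b0 η : ℂ) * (1 + Z η s) * h5
      + (b0 η : ℂ) * (1 - Z η s) * h3
  exact mul_left_cancel₀ (by norm_num) h7

/-- `OO (1 - Z²) = b0 (1 + Z²)` -/
theorem OO_Z {s : ℂ} (hs : |s.re| < η) :
    S (cO η) s * (1 - Z η s ^ 2) = b0 η * (1 + Z η s ^ 2) := by
  have h1 := OC_add hη hs
  have h2 := OC_sub hη hs
  have h3 := one_sub_Z hη hs
  rw [show -2 * LL η s = -(2 * LL η s) by ring] at h3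
  have h4 : Complex.exp (-(2 * LL η s)) * Complex.exp (2 * LL η s) = 1 := by
    rw [← Complex.exp_add, neg_add_cancel, Complex.exp_zero]
  set E := Complex.exp (2 * LL η s)
  set E' := Complex.exp (-(2 * LL η s))
  have h5 : E * (1 - Z η s) = 1 + Z η s := by
    rw [h3]
    linear_combination (1 + Z η s) * h4
  have h6 : 2 * S (cO η) s = b0 η * (E + E') := by linear_combination h1 + h2
  have h7 : (2 : ℂ) * (S (cO η) s * (1 - Z η s ^ 2)) = 2 * (b0 η * (1 + Z η s ^ 2)) := by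
    linear_combination (1 - Z η s ^ 2) * h6 + (b0 η : ℂ) * (1 + Z η s) * h5
      - (b0 η : ℂ) * (1 - Z η s) * h3
  exact mul_left_cancel₀ (by norm_num) h7

/-- **(J1)** the Jacobi equation `(Z')² = a0² (1 - Z²)² + b0² Z²`, where `Z' = AA (1 - Z²)` -/
theorem jac_Z {s : ℂ} (hs : |s.re| < η) :
    (AA η s * (1 - Z η s ^ 2)) ^ 2 = (a0 η : ℂ) ^ 2 * (1 - Z η s ^ 2) ^ 2
      + (b0 η : ℂ) ^ 2 * Z η s ^ 2 := by
  have h1 := jac_AC hη hs
  have h2 := CC_Z hη hs
  have h3 : S (cA η) 0 = (a0 η : ℂ) := S_zero_real _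
  rw [h3] at h1
  have e : AA η s = S (cA η) s := rfl
  rw [e]
  linear_combination (1 - Z η s ^ 2) ^ 2 * h1
    + (S (cC η) s * (1 - Z η s ^ 2) + b0 η * Z η s) * h2

/-! ### the tip -/

/-- the tip of the slit -/
noncomputable def tip (η : ℝ) : ℝ := (Z η ((Real.pi / 2 : ℝ) * I)).im

omit hη in
theorem Z_imag (t : ℝ) : Z η (t * I) = ((Z η (t * I)).im : ℂ) * I := by
  apply Complex.ext
  · rw [Z_re_zero (by simp)]
    simp
  · simp

theorem AA_imag (t : ℝ) : AA η (t * I) = (((AA η (t * I)).re : ℝ) : ℂ) := by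
  apply Complex.ext
  · simp
  · have h := LPLOW.AA_im hη t
    rw [mul_comm] at h
    simpa [AA] using h

omit hη in
theorem hasDerivAt_re {f : ℝ → ℂ} {f' : ℂ} {t : ℝ} (h : HasDerivAt f f' t) :
    HasDerivAt (fun t => (f t).re) f'.re t := by
  have h1 := Complex.reCLM.hasFDerivAt (x := f t) |>.comp_hasDerivAt t h
  exact h1

omit hη in
theorem hasDerivAt_im {f : ℝ → ℂ} {f' : ℂ} {t : ℝ} (h : HasDerivAt f f' t) :
    HasDerivAt (fun t => (f t).im) f'.im t := by
  have h1 := Complex.imCLM.hasFDerivAt (x := f t) |>.comp_hasDerivAt t h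
  exact h1

/-- derivative along the slit -/
theorem Y_deriv (t : ℝ) : HasDerivAt (fun t : ℝ => (Z η (t * I)).im)
    ((AA η (t * I)).re * (1 + (Z η (t * I)).im ^ 2)) t := by
  have h0 : |((t : ℂ) * I).re| < η := by simpa using hη
  have h1 := Z_deriv hη h0
  have h2 : HasDerivAt (fun t : ℂ => t * I) I (t : ℂ) := by
    simpa using (hasDerivAt_id (t : ℂ)).mul_const I
  have h3 : HasDerivAt (fun t : ℂ => Z η (t * I)) (AA η (t * I) * (1 - Z η (t * I) ^ 2) * I)
      (t : ℂ) := h1.comp (t : ℂ) h2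
  have h5 := hasDerivAt_im h3.comp_ofReal
  refine h5.congr_deriv ?_
  have hZ := Z_imag (η := η) t
  have hA := AA_imag hη t
  have e : AA η (t * I) * (1 - Z η (t * I) ^ 2) * I
      = (((AA η (t * I)).re * (1 + (Z η (t * I)).im ^ 2) : ℝ) : ℂ) * I := by
    generalize (AA η (t * I)).re = a at hA ⊢
    generalize (Z η (t * I)).im = y at hZ ⊢
    rw [hA, hZ, mul_pow, Complex.I_sq]
    push_cast
    ring
  rw [e, Complex.mul_I_im, Complex.ofReal_re]

/-- the Jacobi equation along the slit, `(Y')² = a0² (1 - (K-2) Y² + Y⁴)` -/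
theorem Y_jac (t : ℝ) : ((AA η (t * I)).re * (1 + (Z η (t * I)).im ^ 2)) ^ 2
    = a0 η ^ 2 * (1 - (KK η - 2) * (Z η (t * I)).im ^ 2 + (Z η (t * I)).im ^ 4) := by
  have h0 : |((t : ℂ) * I).re| < η := by simpa using hη
  have h1 := jac_Z hη h0
  have hZ := Z_imag (η := η) t
  have hA := AA_imag hη t
  generalize (AA η (t * I)).re = a at hA ⊢
  generalize (Z η (t * I)).im = y at hZ ⊢
  have hI : ((y : ℂ) * I) ^ 2 = -(y : ℂ) ^ 2 := by
    rw [mul_pow, Complex.I_sq]
    ring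
  rw [hA, hZ, hI] at h1
  have h2 : (((a * (1 + y ^ 2)) ^ 2 : ℝ) : ℂ)
      = ((a0 η ^ 2 * (1 + y ^ 2) ^ 2 - b0 η ^ 2 * y ^ 2 : ℝ) : ℂ) := by
    push_cast
    linear_combination h1
  have h3 : (a * (1 + y ^ 2)) ^ 2 = a0 η ^ 2 * (1 + y ^ 2) ^ 2 - b0 η ^ 2 * y ^ 2 := by
    exact_mod_cast h2
  rw [h3, ← KK_mul hη]
  ring

theorem Y_strictMono : StrictMonoOn (fun t : ℝ => (Z η (t * I)).im)
    (Set.Icc (-(Real.pi / 2)) (Real.pi / 2)) := by
  apply strictMonoOn_of_deriv_pos (convex_Icc _ _)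
  · intro t _
    exact (Y_deriv hη t).continuousAt.continuousWithinAt
  · intro t ht
    rw [interior_Icc] at ht
    rw [(Y_deriv hη t).deriv]
    have h1 : 0 < (AA η (t * I)).re :=
      YG.AA_re_pos hη (by simpa using hη) (by simpa using abs_lt.2 ht)
    positivity

theorem tip_pos : 0 < tip η := by
  have hpi := Real.pi_pos
  have h := Y_strictMono hη (a := 0) (b := Real.pi / 2) ⟨by linarith, by linarith⟩
    ⟨by linarith, le_rfl⟩ (by linarith)
  simpa [Z_zero, tip] using h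

theorem tip_lt_one : tip η < 1 := by
  have h := Z_norm_lt_one hη (s := (Real.pi / 2 : ℝ) * I) (by simp) (by simpa using hη)
  exact lt_of_le_of_lt (Complex.im_le_norm _) h

theorem tip_eq : a0 η * (1 + tip η ^ 2) = b0 η * tip η := by
  have h0 : |(((Real.pi / 2 : ℝ) : ℂ) * I).re| < η := by simpa using hη
  have h1 := jac_Z hη h0
  have hA : AA η ((Real.pi / 2 : ℝ) * I) = 0 := by
    have h2 : AA η (I * (Real.pi / 2)) = 0 := AA_pi
    rw [← h2]
    congr 1
    push_cast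
    ring
  rw [hA, zero_mul, Z_imag] at h1
  have h2 : ((0 : ℝ) : ℂ) = ((a0 η ^ 2 * (1 + tip η ^ 2) ^ 2 - b0 η ^ 2 * tip η ^ 2 : ℝ) : ℂ) := by
    have h3 : ((Z η ((Real.pi / 2 : ℝ) * I)).im : ℂ) = ((tip η : ℝ) : ℂ) := rfl
    rw [h3, mul_pow, Complex.I_sq] at h1
    push_cast
    linear_combination h1
  have h3 : 0 = a0 η ^ 2 * (1 + tip η ^ 2) ^ 2 - b0 η ^ 2 * tip η ^ 2 := by exact_mod_cast h2
  have h4 : (a0 η * (1 + tip η ^ 2)) ^ 2 = (b0 η * tip η) ^ 2 := by linarith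
  have ha := a0_pos hη
  have hb := b0_pos hη
  have ht := tip_pos hη
  exact (sq_eq_sq₀ (by positivity) (by positivity)).1 h4

/-- **(J3)** `K = (y0 + 1/y0)²` -/
theorem KK_eq : KK η = (tip η + 1 / tip η) ^ 2 := by
  have ha := a0_pos hη
  have ht := tip_pos hη
  have h := tip_eq hη
  unfold KK
  congr 1
  rw [div_eq_iff ha.ne']
  have h2 : tip η * (1 / tip η) = 1 := by field_simp
  have h3 : tip η * b0 η = tip η * ((tip η + 1 / tip η) * a0 η) := by
    linear_combination -h - a0 η * h2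
  exact mul_left_cancel₀ ht.ne' h3

theorem KK_gt : 4 < KK η := by
  have ht := tip_pos hη
  have h1 := tip_lt_one hη
  rw [KK_eq hη]
  have h2 : tip η * (1 / tip η) = 1 := by field_simp
  have h3 : 0 < 1 / tip η := by positivity
  have h4 : 2 < tip η + 1 / tip η := by
    have h5 : 0 < (1 - tip η) ^ 2 := by
      have : 0 < 1 - tip η := by linarith
      positivity
    have h6 : tip η * (tip η + 1 / tip η - 2) = (1 - tip η) ^ 2 := by
      linear_combination h2
    by_contra hcon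
    push Not at hcon
    have : tip η * (tip η + 1 / tip η - 2) ≤ 0 := by
      apply mul_nonpos_of_nonneg_of_nonpos ht.le
      linarith
    linarith
  nlinarith

end

end Pool.Agent.Lib.MP_0430e4_lc.YE
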