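import Pool.Agent.Lib.MP_0430e4_lc.YE.J5

/-!
Project ALLCODES, part Y1 (helper74): bounds of the flat multiplier `E` (the function `f` with
`f (Z η s) = eF N s`) in the variable `z`.
-/

set_option autoImplicit false

open Filter Topology Set

namespace Pool.Agent.Lib.MP_0430e4_lc.YE

open LPLOW YG
open Complex (I)

variable {η : ℝ}

/-- `f` is the flat multiplier of modulus `η` and degree `N` -/
structure IsE (η : ℝ) (N : ℕ) (f : ℂ → ℂ) : Prop where
  diff : DifferentiableOn ℂ f (Metric.ball 0 1)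
  val : ∀ s : ℂ, 0 ≤ s.re → s.re < η → f (Z η s) = eF N s

/-- `aU ≤ 1 + aL` -/
theorem aU_le_one_add (s : ℂ) : aU s ≤ 1 + aL s := by
  unfold aU aL
  have : (1 + YG.XX s) / 2 = 1 - (1 - YG.XX s) / 2 := by ring
  rw [this]
  refine (norm_sub_le _ _).trans ?_
  rw [norm_one]

theorem norm_sinh_le {w : ℂ} {R : ℝ} (hw : ‖w‖ ≤ R) : ‖Complex.sinh w‖ ≤ Real.exp R * ‖w‖ := by
  have h := Complex.norm_exp_sub_one_sub_id_le (x := w)
  -- mean value on the segment
  have hd : ∀ z : ℂ, HasDerivAt Complex.sinh (Complex.cosh z) z := Complex.hasDerivAt_sinh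
  have hb : ∀ z ∈ Metric.closedBall (0 : ℂ) R, ‖Complex.cosh z‖ ≤ Real.exp R := by
    intro z hz
    have hz' : ‖z‖ ≤ R := by simpa using hz
    have h1 : ‖Complex.exp z‖ ≤ Real.exp R :=
      (Complex.norm_exp_le_exp_norm z).trans (Real.exp_le_exp.2 hz')
    have h2 : ‖Complex.exp (-z)‖ ≤ Real.exp R :=
      (Complex.norm_exp_le_exp_norm (-z)).trans (Real.exp_le_exp.2 (by rwa [norm_neg]))
    rw [Complex.cosh, norm_div, Complex.norm_ofNat]
    have h3 := norm_add_le (Complex.exp z) (Complex.exp (-z))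
    linarith
  have hR : 0 ≤ R := (norm_nonneg w).trans hw
  have := (convex_closedBall (0 : ℂ) R).norm_image_sub_le_of_norm_hasDerivWithin_le
    (f := Complex.sinh) (f' := Complex.cosh) (C := Real.exp R)
    (fun z _ => (hd z).hasDerivWithinAt) hb (x := 0) (y := w) (by simpa using hR)
    (by simpa using hw)
  simpa using this

/-- the lower amplitude is `O(s⁴)` -/
theorem aL_le_pow {R : ℝ} (hR : 0 ≤ R) {s : ℂ} (hs : ‖s‖ ≤ R) :
    aL s ≤ Real.exp R ^ 4 * (1 + 2 * Real.exp R ^ 2) * ‖s‖ ^ 4 := by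
  have h1 := aL_le s
  have hs2 : ‖s / 2‖ ≤ ‖s‖ := by
    rw [norm_div, Complex.norm_ofNat]
    have := norm_nonneg s
    linarith
  have h2 : ‖Complex.sinh (s / 2)‖ ≤ Real.exp R * ‖s‖ := by
    refine (norm_sinh_le (hs2.trans hs)).trans ?_
    exact mul_le_mul_of_nonneg_left hs2 (Real.exp_pos _).le
  have h3 : ‖Complex.cosh (s / 2)‖ ≤ Real.exp R := by
    have h4 : ‖Complex.exp (s / 2)‖ ≤ Real.exp R :=
      (Complex.norm_exp_le_exp_norm _).trans (Real.exp_le_exp.2 (hs2.trans hs))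
    have h5 : ‖Complex.exp (-(s / 2))‖ ≤ Real.exp R :=
      (Complex.norm_exp_le_exp_norm _).trans
        (Real.exp_le_exp.2 (by rw [norm_neg]; exact hs2.trans hs))
    rw [Complex.cosh, norm_div, Complex.norm_ofNat]
    have h6 := norm_add_le (Complex.exp (s / 2)) (Complex.exp (-(s / 2)))
    linarith
  refine h1.trans ?_
  have h4 : ‖Complex.sinh (s / 2)‖ ^ 4 ≤ (Real.exp R * ‖s‖) ^ 4 :=
    pow_le_pow_left₀ (norm_nonneg _) h2 4
  have h5 : ‖Complex.cosh (s / 2)‖ ^ 2 ≤ Real.exp R ^ 2 := pow_le_pow_left₀ (norm_nonneg _) h3 2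
  calc ‖Complex.sinh (s / 2)‖ ^ 4 * (1 + 2 * ‖Complex.cosh (s / 2)‖ ^ 2)
      ≤ (Real.exp R * ‖s‖) ^ 4 * (1 + 2 * Real.exp R ^ 2) :=
        mul_le_mul h4 (by linarith) (by positivity) (by positivity)
    _ = _ := by ring

section
variable (hη : 0 < η)
include hη

theorem exists_IsE {N : ℕ} (hN : Even N) : ∃ f : ℂ → ℂ, IsE η N f := by
  obtain ⟨f, h1, h2⟩ := glue' hη (eF_sy (η := η) hN) (fun s _ => eF_diff N s)
  exact ⟨f, h1, h2⟩

/-- `|s| ≤ C |Z s|` on the closed rectangle -/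
theorem exists_lip : ∃ C : ℝ, 0 < C ∧ ∀ s ∈ Rc η, ‖s‖ ≤ C * ‖Z η s‖ := by
  have hpi := Real.pi_pos
  have hd0 : DifferentiableAt ℂ (Z η) 0 := Z_diff hη (by simpa using hη.le)
  have hcont : ContinuousOn (fun s => ‖dslope (Z η) 0 s‖) (Rc η) := by
    intro s hs
    rw [mem_Rc] at hs
    have h1 : ContinuousAt (dslope (Z η) 0) s := by
      rcases eq_or_ne s 0 with h | h
      · rw [h]
        exact continuousAt_dslope_same.2 hd0
      · rw [continuousAt_dslope_of_ne h]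
        exact Z_cont hη (by rw [abs_of_nonneg hs.1.1]; exact hs.1.2)
    exact h1.norm.continuousWithinAt
  have hne : (Rc η).Nonempty := ⟨0, by
    rw [mem_Rc]
    simp
    exact ⟨hη.le, by positivity⟩⟩
  obtain ⟨s0, hs0, hmin⟩ := Rc_compact.exists_isMinOn hne hcont
  have hpos : 0 < ‖dslope (Z η) 0 s0‖ := by
    rw [norm_pos_iff]
    rcases eq_or_ne s0 0 with h | h
    · rw [h, dslope_same]
      have h2 := Z_deriv hη (s := 0) (by simpa using hη)
      rw [h2.deriv, Z_zero]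
      have := AA_zero_ne hη
      simpa using this
    · rw [dslope_of_ne _ h, slope_def_field, Z_zero, sub_zero, sub_zero]
      apply div_ne_zero _ h
      intro h3
      rw [mem_Rc] at hs0
      rcases hs0.1.2.lt_or_eq with h4 | h4
      · apply h
        exact Z_inj hη hs0.1.1 h4 hs0.2 (b := 0) le_rfl (by simpa using hη)
          (by simp; positivity) (by rw [h3, Z_zero])
      · have := Z_norm hη h4
        rw [h3, norm_zero] at this
        exact zero_ne_one this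
  refine ⟨‖dslope (Z η) 0 s0‖⁻¹, inv_pos.2 hpos, fun s hs => ?_⟩
  rcases eq_or_ne s 0 with h | h
  · rw [h, norm_zero]
    positivity
  have h5 : ‖dslope (Z η) 0 s0‖ ≤ ‖dslope (Z η) 0 s‖ := hmin hs
  rw [dslope_of_ne _ h, slope_def_field, Z_zero, sub_zero, sub_zero, norm_div] at h5
  have hsn : 0 < ‖s‖ := norm_pos_iff.2 h
  rw [le_div_iff₀ hsn] at h5
  rw [inv_mul_eq_div, le_div_iff₀ hpos]
  linarith

/-- **(E4)** -/
theorem IsE.le_cosh {N : ℕ} {f : ℂ → ℂ} (hf : IsE η N f) {z : ℂ} (hz : ‖z‖ < 1) :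
    ‖f z‖ ≤ Real.exp (N * om η z) * Real.cosh (om η z) ^ 3 := by
  have h0 := sec_re_nonneg hη hz.le
  have h1 : (sec η z).re < η := om_lt hη hz
  have h2 := hf.val (sec η z) h0 h1
  rw [Z_sec hη hz.le] at h2
  rw [h2]
  exact norm_eF_le N h0

/-- every point of the disc is `Z t` or `- Z t` with `t` in the closed rectangle -/
theorem exists_rect {z : ℂ} (hz : ‖z‖ < 1) : ∃ t ∈ Rc η, t.re < η ∧ om η z = t.re ∧
    ‖Z η t‖ = ‖z‖ ∧ (z = Z η t ∨ z = Z η (t + Real.pi * I)) := by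
  rcases le_total 0 z.re with h | h
  · obtain ⟨s, hs, hzs⟩ := surj_right hη hz.le h
    have hs' := mem_Rc.1 hs
    have hlt : s.re < η := by
      rcases hs'.1.2.lt_or_eq with h1 | h1
      · exact h1
      · have := Z_norm hη h1
        rw [hzs] at this
        linarith
    refine ⟨s, hs, hlt, ?_, by rw [hzs], Or.inl hzs.symm⟩
    rw [← hzs, om_Z hη hs'.1.1 hs'.1.2]
  · obtain ⟨s, hs, hzs⟩ := surj_right hη (z := -z) (by rw [norm_neg]; exact hz.le) (by simpa using h)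
    have hs' := mem_Rc.1 hs
    have hlt : s.re < η := by
      rcases hs'.1.2.lt_or_eq with h1 | h1
      · exact h1
      · have := Z_norm hη h1
        rw [hzs, norm_neg] at this
        linarith
    refine ⟨s, hs, hlt, ?_, by rw [hzs, norm_neg], Or.inr ?_⟩
    · rw [← om_neg hη hz.le, ← hzs, om_Z hη hs'.1.1 hs'.1.2]
    · rw [Z_add_pi, hzs, neg_neg]

omit hη in
theorem IsE.left {N : ℕ} (hN : Even N) {f : ℂ → ℂ} (hf : IsE η N f) {t : ℂ} (h0 : 0 ≤ t.re)
    (h1 : t.re < η) : f (Z η (t + Real.pi * I)) = eF N (t + Real.pi * I) :=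
  hf.val _ (by simpa using h0) (by simpa using h1)

/-- **(E1)** `|E z| ≤ exp (N om z) (1 + C |z|⁴)` with `C` independent of `N` -/
theorem exists_E1' : ∃ C : ℝ, 0 < C ∧ ∀ (N : ℕ) (f : ℂ → ℂ), Even N → IsE η N f → ∀ z : ℂ,
    ‖z‖ < 1 → ‖f z‖ ≤ Real.exp (N * om η z) * (1 + C * ‖z‖ ^ 4) := by
  obtain ⟨C, hC, hlip⟩ := exists_lip hη
  -- bound of the rectangle
  set R : ℝ := C with hR
  set A : ℝ := Real.exp R ^ 4 * (1 + 2 * Real.exp R ^ 2) with hA
  refine ⟨2 * A * C ^ 4, by positivity, fun N f hN hf z hz => ?_⟩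
  obtain ⟨t, ht, ht1, hom, hnz, hz'⟩ := exists_rect hη hz
  have ht' := mem_Rc.1 ht
  have htn : ‖t‖ ≤ C * ‖z‖ := by rw [← hnz]; exact hlip t ht
  have htR : ‖t‖ ≤ R := htn.trans (by nlinarith [norm_nonneg z])
  have haL : aL t ≤ A * C ^ 4 * ‖z‖ ^ 4 := by
    refine (aL_le_pow hC.le htR).trans ?_
    have h1 : ‖t‖ ^ 4 ≤ (C * ‖z‖) ^ 4 := pow_le_pow_left₀ (norm_nonneg _) htn 4
    calc A * ‖t‖ ^ 4 ≤ A * (C * ‖z‖) ^ 4 := mul_le_mul_of_nonneg_left h1 (by positivity)
      _ = _ := by ring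
  have haU := aU_le_one_add t
  have h0 : 0 ≤ (N : ℝ) * t.re := mul_nonneg (Nat.cast_nonneg N) ht'.1.1
  have he1 : Real.exp (-(N * t.re)) ≤ Real.exp (N * t.re) := Real.exp_le_exp.2 (by linarith)
  have haL0 := aL_nonneg t
  have haU0 := aU_nonneg t
  have hE := Real.exp_pos (N * t.re)
  have key : ‖f z‖ ≤ Real.exp (N * t.re) * (1 + 2 * aL t) := by
    rcases hz' with h | h
    · rw [h, hf.val t ht'.1.1 ht1]
      refine (norm_eF_amp N t).trans ?_
      have h2 := mul_le_mul_of_nonneg_right he1 haL0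
      have h3 := mul_le_mul_of_nonneg_left haU hE.le
      linarith
    · rw [h, hf.left hN ht'.1.1 ht1]
      refine (norm_eF_left hN t).trans ?_
      have h2 := mul_le_mul_of_nonneg_right he1 haU0
      have h3 := mul_le_mul_of_nonneg_left haU hE.le
      linarith
  refine key.trans ?_
  rw [hom]
  apply mul_le_mul_of_nonneg_left _ hE.le
  linarith

/-- **(E1)** `|E z| ≤ exp (N om z + C |z|⁴)` with `C` independent of `N` -/
theorem exists_E1 : ∃ C : ℝ, 0 ≤ C ∧ ∀ (N : ℕ) (f : ℂ → ℂ), Even N → IsE η N f → ∀ z : ℂ,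
    ‖z‖ < 1 → ‖f z‖ ≤ Real.exp (N * om η z + C * ‖z‖ ^ 4) := by
  obtain ⟨C, hC, H⟩ := exists_E1' hη
  refine ⟨C, hC.le, fun N f hN hf z hz => (H N f hN hf z hz).trans ?_⟩
  rw [Real.exp_add]
  apply mul_le_mul_of_nonneg_left _ (Real.exp_pos _).le
  have := Real.add_one_le_exp (C * ‖z‖ ^ 4)
  linarith

/-- points of the slit -/
theorem exists_slit {y : ℝ} (hy : |y| ≤ tip η) : ∃ t : ℝ, |t| ≤ Real.pi / 2 ∧
    Z η (t * I) = y * I := by
  have hpi := Real.pi_pos
  have hc : ContinuousOn (fun t : ℝ => (Z η (t * I)).im) (Icc (-(Real.pi / 2)) (Real.pi / 2)) :=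
    fun t _ => (Y_deriv hη t).continuousAt.continuousWithinAt
  have h1 := intermediate_value_Icc (by linarith : -(Real.pi / 2) ≤ Real.pi / 2) hc
  have h2 : (Z η ((Real.pi / 2 : ℝ) * I)).im = tip η := rfl
  have h3 : (Z η ((-(Real.pi / 2) : ℝ) * I)).im = -tip η := by
    have : (((-(Real.pi / 2) : ℝ)) : ℂ) * I = -(((Real.pi / 2 : ℝ) : ℂ) * I) := by
      push_cast
      ring
    rw [this, Z_neg, Complex.neg_im]
    rfl
  rw [h2, h3] at h1
  obtain ⟨t, ht, hty⟩ := h1 (abs_le.1 hy)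
  refine ⟨t, abs_le.2 ht, ?_⟩
  have hty' : (Z η (t * I)).im = y := hty
  rw [Z_imag, hty']

/-- **(E3)** `|E| ≤ 1` on the slit -/
theorem IsE.slit {N : ℕ} {f : ℂ → ℂ} (hf : IsE η N f) {y : ℝ} (hy : |y| ≤ tip η) :
    ‖f (y * I)‖ ≤ 1 := by
  obtain ⟨t, _, ht⟩ := exists_slit hη hy
  rw [← ht, hf.val _ (by simp) (by simpa using hη)]
  exact norm_eF_slit N (by simp)

theorem IsE.at_zero {N : ℕ} {f : ℂ → ℂ} (hf : IsE η N f) : f 0 = 1 := by
  have := hf.val 0 (by simp) (by simpa using hη)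
  rwa [Z_zero, eF_zero] at this

theorem IsE.conj {N : ℕ} {f : ℂ → ℂ} (hf : IsE η N f) {z : ℂ} (hz : ‖z‖ < 1) :
    f (starRingEnd ℂ z) = starRingEnd ℂ (f z) := by
  have h0 := sec_re_nonneg hη hz.le
  have h1 : (sec η z).re < η := om_lt hη hz
  rw [← Z_sec hη hz.le, ← Z_conj, hf.val _ (by simpa using h0) (by simpa using h1),
    hf.val _ h0 h1, eF_conj]

theorem IsE.hasDerivAt_zero {N : ℕ} {f : ℂ → ℂ} (hf : IsE η N f) :
    HasDerivAt f ((N : ℂ) / a0 η) 0 := by
  have hd : HasDerivAt f (deriv f 0) 0 :=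
    (hf.diff.differentiableAt (Metric.isOpen_ball.mem_nhds (by simp))).hasDerivAt
  have ha := a0_pos hη
  have haC : ((a0 η : ℝ) : ℂ) ≠ 0 := by exact_mod_cast ha.ne'
  have hZ : HasDerivAt (Z η) (a0 η : ℂ) 0 := by
    have := Z_deriv hη (s := 0) (by simpa using hη)
    rwa [Z_zero, zero_pow two_ne_zero, sub_zero, mul_one, AA0] at this
  have hcomp : HasDerivAt (fun s => f (Z η s)) (deriv f 0 * a0 η) 0 := by
    have hf' : HasDerivAt f (deriv f 0) (Z η 0) := by rwa [Z_zero]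
    exact hf'.comp 0 hZ
  have hr : HasDerivAt (fun x : ℝ => f (Z η (x : ℂ))) (deriv f 0 * a0 η) 0 := by
    have h4 : HasDerivAt (fun s => f (Z η s)) (deriv f 0 * a0 η) ((0 : ℝ) : ℂ) := by
      simpa using hcomp
    exact h4.comp_ofReal
  have he : HasDerivAt (fun x : ℝ => eF N (x : ℂ)) (N : ℂ) 0 := by
    have h4 : HasDerivAt (eF N) (N : ℂ) ((0 : ℝ) : ℂ) := by simpa using eF_deriv_zero N
    exact h4.comp_ofReal
  have hw2 : HasDerivWithinAt (fun x : ℝ => f (Z η (x : ℂ))) (N : ℂ) (Ici 0) 0 := by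
    refine (he.hasDerivWithinAt (s := Ici 0)).congr_of_eventuallyEq ?_ ?_
    · have : Iio η ∈ 𝓝[Ici 0] (0 : ℝ) := mem_nhdsWithin_of_mem_nhds (Iio_mem_nhds hη)
      filter_upwards [this, self_mem_nhdsWithin] with x hx1 hx2
      exact hf.val _ (by simpa using hx2) (by simpa using hx1)
    · exact hf.val _ (by simp) (by simpa using hη)
  have h5 : deriv f 0 * a0 η = (N : ℂ) :=
    (uniqueDiffWithinAt_Ici (0 : ℝ)).eq_deriv (Ici (0 : ℝ)) hr.hasDerivWithinAt hw2
  have h6 : deriv f 0 = (N : ℂ) / a0 η := by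
    rw [eq_div_iff haC]
    exact h5
  rw [← h6]
  exact hd

omit hη in
/-- left of the slit, near the origin: `|f z| ≤ exp ((1 - θ) M Re z)`, general form -/
theorem left_gen {f : ℂ → ℂ} (hfd : DifferentiableOn ℂ f (Metric.ball 0 1)) (hf0 : f 0 = 1)
    {M : ℝ} (hM : 0 < M) (hder : deriv f 0 = (M : ℂ)) {y0 : ℝ} (ht : 0 < y0) (htl : y0 < 1)
    (hslit : ∀ y : ℝ, |y| ≤ y0 → ‖f (y * I)‖ ≤ 1) {θ : ℝ} (hθ : 0 < θ) :
    ∃ zN : ℝ, 0 < zN ∧ zN < 1 ∧ ∀ z : ℂ, ‖z‖ ≤ zN → z.re ≤ 0 →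
      ‖f z‖ ≤ Real.exp ((1 - θ) * M * z.re) := by
  set c : ℝ := (1 - θ) * M with hc
  have hq : c < M := by
    rw [hc]
    nlinarith
  -- `Re (E'/E) > c` near the origin
  have hball : Metric.ball (0 : ℂ) 1 ∈ 𝓝 (0 : ℂ) := Metric.isOpen_ball.mem_nhds (by simp)
  have hfa : AnalyticAt ℂ f 0 := hfd.analyticAt hball
  have hcont : ContinuousAt (fun z => deriv f z / f z) 0 := by
    apply hfa.deriv.continuousAt.div hfa.continuousAt
    rw [hf0]
    exact one_ne_zero
  have hval : ((fun z => deriv f z / f z) 0).re = M := by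
    simp only
    rw [hf0, hder, div_one, Complex.ofReal_re]
  have hev1 : ∀ᶠ z in 𝓝 (0 : ℂ), c < (deriv f z / f z).re := by
    have h1 : ContinuousAt (fun z => (deriv f z / f z).re) 0 :=
      Complex.continuous_re.continuousAt.comp hcont
    exact h1.eventually_const_lt (by rw [← hval] at hq; exact hq)
  have hev2 : ∀ᶠ z in 𝓝 (0 : ℂ), f z ≠ 0 := by
    apply hfa.continuousAt.eventually_ne
    rw [hf0]
    exact one_ne_zero
  obtain ⟨r, hr, h⟩ := Metric.eventually_nhds_iff_ball.mp (hev1.and hev2)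
  set zN : ℝ := min (r / 2) y0 with hzN
  have hzN0 : 0 < zN := lt_min (by positivity) ht
  have hzN1 : zN < 1 := lt_of_le_of_lt (min_le_right _ _) htl
  refine ⟨zN, hzN0, hzN1, fun z hz hre => ?_⟩
  -- the segment `[z, i Im z]`
  have hseg : ∀ x : ℝ, z.re ≤ x → x ≤ 0 → ‖(x : ℂ) + z.im * I‖ ≤ zN := by
    intro x h1 h2
    refine le_trans ?_ hz
    have e1 : ‖(x : ℂ) + z.im * I‖ ^ 2 = x ^ 2 + z.im ^ 2 := by
      rw [← Complex.normSq_eq_norm_sq, Complex.normSq_add_mul_I]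
    have e2 : ‖z‖ ^ 2 = z.re ^ 2 + z.im ^ 2 := by
      rw [← Complex.normSq_eq_norm_sq, Complex.normSq_apply]
      ring
    have h3 : ‖(x : ℂ) + z.im * I‖ ^ 2 ≤ ‖z‖ ^ 2 := by
      rw [e1, e2]
      nlinarith
    exact (sq_le_sq₀ (norm_nonneg _) (norm_nonneg _)).1 h3
  have hin : ∀ x : ℝ, z.re ≤ x → x ≤ 0 → c < (deriv f ((x : ℂ) + z.im * I) /
      f ((x : ℂ) + z.im * I)).re ∧ f ((x : ℂ) + z.im * I) ≠ 0 ∧
      ((x : ℂ) + z.im * I) ∈ Metric.ball (0 : ℂ) 1 := by
    intro x h1 h2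
    have h3 := hseg x h1 h2
    have h4 : ((x : ℂ) + z.im * I) ∈ Metric.ball (0 : ℂ) r := by
      rw [mem_ball_zero_iff]
      have := min_le_left (r / 2) y0
      linarith
    have h5 := h _ h4
    refine ⟨h5.1, h5.2, ?_⟩
    rw [mem_ball_zero_iff]
    linarith
  have hd : ∀ x : ℝ, z.re ≤ x → x ≤ 0 →
      HasDerivAt (fun x : ℝ => Complex.normSq (f ((x : ℂ) + z.im * I)) * Real.exp (-(2 * c * x)))
        (2 * (starRingEnd ℂ (f ((x : ℂ) + z.im * I)) * deriv f ((x : ℂ) + z.im * I)).re *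
          Real.exp (-(2 * c * x)) + Complex.normSq (f ((x : ℂ) + z.im * I)) *
          (Real.exp (-(2 * c * x)) * (-(2 * c)))) x := by
    intro x h1 h2
    obtain ⟨_, _, h5⟩ := hin x h1 h2
    have h6 : HasDerivAt f (deriv f ((x : ℂ) + z.im * I)) ((x : ℂ) + z.im * I) :=
      (hfd.differentiableAt (Metric.isOpen_ball.mem_nhds h5)).hasDerivAt
    have h7 : HasDerivAt (fun x : ℂ => x + z.im * I) 1 (x : ℂ) := by
      simpa using (hasDerivAt_id (x : ℂ)).add_const ((z.im : ℂ) * I)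
    have h8 : HasDerivAt (fun x : ℂ => f (x + z.im * I)) (deriv f ((x : ℂ) + z.im * I) * 1)
        (x : ℂ) := h6.comp (x : ℂ) h7
    rw [mul_one] at h8
    have h9 := h8.comp_ofReal
    have hr := hasDerivAt_re h9
    have hi := hasDerivAt_im h9
    have hN : HasDerivAt (fun x : ℝ => Complex.normSq (f ((x : ℂ) + z.im * I)))
        (2 * (starRingEnd ℂ (f ((x : ℂ) + z.im * I)) * deriv f ((x : ℂ) + z.im * I)).re) x := by
      have h10 := (hr.mul hr).add (hi.mul hi)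
      have e : (fun x : ℝ => Complex.normSq (f ((x : ℂ) + z.im * I)))
          = fun x : ℝ => (f ((x : ℂ) + z.im * I)).re * (f ((x : ℂ) + z.im * I)).re
            + (f ((x : ℂ) + z.im * I)).im * (f ((x : ℂ) + z.im * I)).im := by
        funext x; exact Complex.normSq_apply _
      rw [e]
      refine h10.congr_deriv ?_
      simp only [Complex.mul_re, Complex.conj_re, Complex.conj_im]
      ring
    have hE : HasDerivAt (fun x : ℝ => Real.exp (-(2 * c * x)))
        (Real.exp (-(2 * c * x)) * (-(2 * c))) x := by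
      have h11 : HasDerivAt (fun x : ℝ => -(2 * c) * x) (-(2 * c)) x := by
        simpa using (hasDerivAt_id x).const_mul (-(2 * c))
      have h12 : HasDerivAt (fun x : ℝ => -(2 * c * x)) (-(2 * c)) x := by
        have e : (fun x : ℝ => -(2 * c * x)) = fun x : ℝ => -(2 * c) * x := by
          funext x
          ring
        rw [e]
        exact h11
      exact h12.exp
    exact hN.mul hE
  have hm : MonotoneOn (fun x : ℝ => Complex.normSq (f ((x : ℂ) + z.im * I)) *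
      Real.exp (-(2 * c * x))) (Icc z.re 0) := by
    apply monotoneOn_of_deriv_nonneg (convex_Icc _ _)
    · intro x hx
      exact (hd x hx.1 hx.2).continuousAt.continuousWithinAt
    · intro x hx
      rw [interior_Icc] at hx
      exact (hd x hx.1.le hx.2.le).differentiableAt.differentiableWithinAt
    · intro x hx
      rw [interior_Icc] at hx
      rw [(hd x hx.1.le hx.2.le).deriv]
      obtain ⟨h3, h4, _⟩ := hin x hx.1.le hx.2.le
      set w := f ((x : ℂ) + z.im * I) with hw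
      set w' := deriv f ((x : ℂ) + z.im * I) with hw'
      have e : starRingEnd ℂ w * w' = (Complex.normSq w : ℂ) * (w' / w) := by
        rw [← Complex.mul_conj]
        field_simp
      rw [e, Complex.re_ofReal_mul]
      have h5 : 0 < Complex.normSq w := Complex.normSq_pos.2 h4
      have h6 := Real.exp_pos (-(2 * c * x))
      have h7 : 2 * (Complex.normSq w * (w' / w).re) * Real.exp (-(2 * c * x)) +
          Complex.normSq w * (Real.exp (-(2 * c * x)) * (-(2 * c)))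
          = 2 * (Complex.normSq w * Real.exp (-(2 * c * x))) * ((w' / w).re - c) := by ring
      rw [h7]
      have : 0 < (w' / w).re - c := by linarith
      positivity
  have h1 := hm (a := z.re) (b := 0) ⟨le_rfl, hre⟩ ⟨hre, le_rfl⟩ hre
  simp only [Complex.ofReal_zero, zero_add, mul_zero, neg_zero, Real.exp_zero, mul_one] at h1
  rw [Complex.re_add_im] at h1
  have h2 : ‖f (z.im * I)‖ ≤ 1 := hslit z.im (by
    have h3 : |z.im| ≤ ‖z‖ := Complex.abs_im_le_norm z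
    exact h3.trans (hz.trans (min_le_right _ _)))
  have h3 : Complex.normSq (f (z.im * I)) ≤ 1 := by
    rw [Complex.normSq_eq_norm_sq]
    have := norm_nonneg (f (z.im * I))
    nlinarith
  have h4 : ‖f z‖ ^ 2 ≤ Real.exp (c * z.re) ^ 2 := by
    have h5 : Complex.normSq (f z) * Real.exp (-(2 * c * z.re)) ≤ 1 := h1.trans h3
    rw [Complex.normSq_eq_norm_sq, Real.exp_neg, ← div_eq_mul_inv,
      div_le_iff₀ (Real.exp_pos _), one_mul] at h5
    refine h5.trans (le_of_eq ?_)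
    rw [sq, ← Real.exp_add]
    congr 1
    ring
  exact (sq_le_sq₀ (norm_nonneg _) (Real.exp_pos _).le).1 h4

/-- **(E2)** left of the slit, near the origin: `|E z| ≤ exp ((1 - θ) (N / a0) Re z)` -/
theorem IsE.exists_left {N : ℕ} (hN0 : 0 < N) {f : ℂ → ℂ} (hf : IsE η N f) {θ : ℝ} (hθ : 0 < θ) :
    ∃ zN : ℝ, 0 < zN ∧ zN < 1 ∧ ∀ z : ℂ, ‖z‖ ≤ zN → z.re ≤ 0 →
      ‖f z‖ ≤ Real.exp ((1 - θ) * (N / a0 η) * z.re) := by
  have ha := a0_pos hη
  have hNr : (0 : ℝ) < N := by exact_mod_cast hN0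
  refine left_gen hf.diff (hf.at_zero hη) (M := N / a0 η) (by positivity) ?_ (tip_pos hη)
    (tip_lt_one hη) (fun y hy => hf.slit hη hy) hθ
  rw [(hf.hasDerivAt_zero hη).deriv]
  push_cast
  rfl

end

end Pool.Agent.Lib.MP_0430e4_lc.YE
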