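import Pool.Agent.Lib.MP_0430e4_lc.YE.E1

/-!
Project ALLCODES, part Y1 (helper74): the pointwise bound of the base function
`F0 = q * E^{m1} * (1 + z²/tip²)^{m2}` by the potential and the perturbation.
-/

set_option autoImplicit false

open Filter Topology Set

namespace Pool.Agent.Lib.MP_0430e4_lc.YE

open LPLOW YG
open Complex (I)

variable {η η1 : ℝ}

/-- the factor with a zero at the tip -/
noncomputable def Bz (η : ℝ) (z : ℂ) : ℂ := 1 + z ^ 2 / (tip η : ℂ) ^ 2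

/-- the base function -/
noncomputable def F0 (η : ℝ) (q E : ℂ → ℂ) (m1 m2 : ℕ) (z : ℂ) : ℂ :=
  q z * E z ^ m1 * Bz η z ^ m2

/-- `‖w‖^m ≤ exp (x log ‖w‖)` for `x = m` -/
theorem pow_le_exp_log {x : ℝ} {m : ℕ} (hx : x = m) (w : ℂ) :
    ‖w‖ ^ m ≤ Real.exp (x * Real.log ‖w‖) := by
  rw [hx]
  rcases (norm_nonneg w).eq_or_lt with h | h
  · rw [← h, Real.log_zero, mul_zero, Real.exp_zero]
    rcases Nat.eq_zero_or_pos m with hm | hm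
    · rw [hm, pow_zero]
    · rw [zero_pow hm.ne']
      exact zero_le_one
  · rw [mul_comm, Real.exp_mul, Real.exp_log h, Real.rpow_natCast]

/-- **pointwise bound**: `log ‖F0 z‖ ≤ N0 (U z + e1 pert z)`; `θ`, `k3` are the exact proportions. -/
theorem F0_le (hη : 0 < η) (hη1 : 0 < η1) {c e1 N θ k3 C : ℝ} {N0 n m1 m2 : ℕ} {q E : ℂ → ℂ}
    (hn : (n : ℝ) = N) (hN : 0 < N)
    (h1 : (m1 : ℝ) * N = (1 + θ) * (a0 η1 / (η * a0 η)) * e1 * N0)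
    (h2 : (m2 : ℝ) = k3 * e1 * N0) {z : ℂ}
    (hq : ‖q z‖ ≤ Real.exp (N0 * UG η (c - e1) z))
    (hE : ‖E z‖ ≤ Real.exp (n * om η1 z + C * ‖z‖ ^ 4)) :
    ‖F0 η q E m1 m2 z‖ ≤ Real.exp (N0 * (UG η c z + e1 * pert η η1 N θ k3 C z)) := by
  have _h := hη1
  have h3 : UG η (c - e1) z = UG η c z - e1 / η * om η z := by
    have := UG_add hη (c - e1) e1 z
    rw [sub_add_cancel] at this
    linarith
  have h4 : ‖E z‖ ^ m1 ≤ Real.exp (m1 * (n * om η1 z + C * ‖z‖ ^ 4)) := by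
    rw [Real.exp_nat_mul]
    exact pow_le_pow_left₀ (norm_nonneg _) hE m1
  have h5 : ‖Bz η z‖ ^ m2 ≤ Real.exp ((k3 * e1 * N0) * Real.log ‖Bz η z‖) :=
    pow_le_exp_log h2.symm _
  unfold F0
  rw [norm_mul, norm_mul, norm_pow, norm_pow]
  have h6 : ‖q z‖ * ‖E z‖ ^ m1 * ‖Bz η z‖ ^ m2 ≤
      Real.exp (N0 * UG η (c - e1) z) * Real.exp (m1 * (n * om η1 z + C * ‖z‖ ^ 4)) *
        Real.exp ((k3 * e1 * N0) * Real.log ‖Bz η z‖) :=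
    mul_le_mul (mul_le_mul hq h4 (by positivity) (by positivity)) h5 (by positivity) (by positivity)
  refine h6.trans (le_of_eq ?_)
  rw [← Real.exp_add, ← Real.exp_add]
  congr 1
  have h7 : (m1 : ℝ) * (n * om η1 z + C * ‖z‖ ^ 4)
      = (m1 * N) * (om η1 z + C * ‖z‖ ^ 4 / N) := by
    rw [hn]
    field_simp
  rw [h7, h1, h3]
  unfold pert Bz
  ring

/-- the base function is at most the value of the bound on the positive axis, if `q` has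
nonnegative coefficients (`hq`: `‖q z‖ ≤ (bound of q at ‖z‖)`) -/
theorem F0_le_real (hη : 0 < η) (hη1 : 0 < η1) {c e1 N θ k3 C : ℝ} {N0 n m1 m2 : ℕ} {q E : ℂ → ℂ}
    (hn : (n : ℝ) = N) (hN : 0 < N) (hθ : 0 ≤ 1 + θ) (hk : 0 ≤ k3) (he : 0 ≤ e1)
    (h1 : (m1 : ℝ) * N = (1 + θ) * (a0 η1 / (η * a0 η)) * e1 * N0)
    (h2 : (m2 : ℝ) = k3 * e1 * N0) {z : ℂ} (hz : ‖z‖ ≤ 1)
    (hq : ‖q z‖ ≤ Real.exp (N0 * UG η (c - e1) ((‖z‖ : ℝ) : ℂ)))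
    (hE : ‖E z‖ ≤ Real.exp (n * om η1 z + C * ‖z‖ ^ 4)) :
    ‖F0 η q E m1 m2 z‖ ≤ Real.exp (N0 * (UG η c ((‖z‖ : ℝ) : ℂ) + e1 * (-om η ((‖z‖ : ℝ) : ℂ) / η
      + (1 + θ) * (a0 η1 / (η * a0 η)) * (om η1 ((‖z‖ : ℝ) : ℂ) + C * ‖z‖ ^ 4 / N)
      + k3 * Real.log (1 + ‖z‖ ^ 2 / tip η ^ 2)))) := by
  have ha := a0_pos hη
  have ha1 := a0_pos hη1
  have h3 : UG η (c - e1) ((‖z‖ : ℝ) : ℂ) = UG η c ((‖z‖ : ℝ) : ℂ)
      - e1 / η * om η ((‖z‖ : ℝ) : ℂ) := by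
    have := UG_add hη (c - e1) e1 ((‖z‖ : ℝ) : ℂ)
    rw [sub_add_cancel] at this
    linarith
  have h4 : ‖E z‖ ^ m1 ≤ Real.exp (m1 * (n * om η1 z + C * ‖z‖ ^ 4)) := by
    rw [Real.exp_nat_mul]
    exact pow_le_pow_left₀ (norm_nonneg _) hE m1
  have h4' : ‖E z‖ ^ m1 ≤ Real.exp (m1 * (n * om η1 ((‖z‖ : ℝ) : ℂ) + C * ‖z‖ ^ 4)) := by
    refine h4.trans (Real.exp_le_exp.2 ?_)
    apply mul_le_mul_of_nonneg_left _ (Nat.cast_nonneg m1)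
    have := mul_le_mul_of_nonneg_left (om_le_abs hη1 hz) (Nat.cast_nonneg (α := ℝ) n)
    linarith
  have h5 : ‖Bz η z‖ ^ m2 ≤ Real.exp ((k3 * e1 * N0) * Real.log (1 + ‖z‖ ^ 2 / tip η ^ 2)) := by
    refine (pow_le_exp_log h2.symm _).trans (Real.exp_le_exp.2 ?_)
    apply mul_le_mul_of_nonneg_left (log_norm_le (tip_pos hη) z)
    have : (0 : ℝ) ≤ N0 := Nat.cast_nonneg N0
    positivity
  unfold F0
  rw [norm_mul, norm_mul, norm_pow, norm_pow]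
  have h6 := mul_le_mul (mul_le_mul hq h4' (by positivity) (by positivity)) h5 (by positivity)
    (by positivity)
  refine h6.trans (le_of_eq ?_)
  rw [← Real.exp_add, ← Real.exp_add]
  congr 1
  have h7 : (m1 : ℝ) * (n * om η1 ((‖z‖ : ℝ) : ℂ) + C * ‖z‖ ^ 4)
      = (m1 * N) * (om η1 ((‖z‖ : ℝ) : ℂ) + C * ‖z‖ ^ 4 / N) := by
    rw [hn]
    field_simp
  rw [h7, h1, h3]
  ring

end Pool.Agent.Lib.MP_0430e4_lc.YE
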