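import Pool.Agent.Lib.MP_0430e4_lc.YE.J1

/-!
Project ALLCODES, part Y1 (helper74): `om` on the real axis, comparison of two slits.

`a0 η * om η x` has derivative `1 / √(Phi (KK η) x)`.
-/

set_option autoImplicit false

open Filter Topology Set

namespace Pool.Agent.Lib.MP_0430e4_lc.YE

open LPLOW YG
open Complex (I)

variable {η : ℝ}

theorem Phi_ge_one {K x : ℝ} (hK : 2 ≤ K) : 1 ≤ Phi K x := by
  unfold Phi
  nlinarith [sq_nonneg x, sq_nonneg (x ^ 2), mul_nonneg (sub_nonneg.2 hK) (sq_nonneg x)]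

theorem Phi_pos {K x : ℝ} (hK : 2 ≤ K) : 0 < Phi K x := lt_of_lt_of_le one_pos (Phi_ge_one hK)

theorem Phi_cont (K : ℝ) : Continuous (Phi K) := by
  unfold Phi
  fun_prop

/-- `Z` is real on the real axis -/
theorem Z_real (t : ℝ) : Z η (t : ℂ) = (((Z η (t : ℂ)).re : ℝ) : ℂ) := by
  have h := Z_conj (η := η) (t : ℂ)
  rw [Complex.conj_ofReal] at h
  have h1 := congrArg Complex.im h
  simp only [Complex.conj_im] at h1
  apply Complex.ext
  · simp
  · simp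
    linarith

theorem AA_real (t : ℝ) : AA η (t : ℂ) = (((AA η (t : ℂ)).re : ℝ) : ℂ) := by
  have h := AA_conj (η := η) (t : ℂ)
  rw [Complex.conj_ofReal] at h
  have h1 := congrArg Complex.im h
  simp only [Complex.conj_im] at h1
  apply Complex.ext
  · simp
  · simp
    linarith

/-- the strip map on the real axis -/
noncomputable def zr (η t : ℝ) : ℝ := (Z η (t : ℂ)).re

theorem Z_ofReal (t : ℝ) : Z η (t : ℂ) = ((zr η t : ℝ) : ℂ) := Z_real t

theorem zr_zero : zr η 0 = 0 := by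
  unfold zr
  rw [Complex.ofReal_zero, Z_zero]
  simp

section
variable (hη : 0 < η)
include hη

theorem zr_cont : ContinuousOn (zr η) (Icc 0 η) := by
  intro t ht
  have h1 : ContinuousAt (Z η) (t : ℂ) := Z_cont hη (by simpa [abs_of_nonneg ht.1] using ht.2)
  exact (Complex.continuous_re.continuousAt.comp
    (h1.comp Complex.continuous_ofReal.continuousAt)).continuousWithinAt

theorem zr_deriv {t : ℝ} (ht : |t| < η) :
    HasDerivAt (zr η) ((AA η (t : ℂ)).re * (1 - zr η t ^ 2)) t := by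
  have h1 := Z_deriv hη (s := (t : ℂ)) (by simpa using ht)
  have h2 := h1.real_of_complex
  refine h2.congr_deriv ?_
  have hA := AA_real (η := η) t
  have hZ := Z_ofReal (η := η) t
  have e : AA η (t : ℂ) * (1 - Z η (t : ℂ) ^ 2)
      = (((AA η (t : ℂ)).re * (1 - zr η t ^ 2) : ℝ) : ℂ) := by
    generalize (AA η (t : ℂ)).re = a at hA ⊢
    rw [hA, hZ]
    push_cast
    ring
  rw [e, Complex.ofReal_re]

theorem zr_sq_lt {t : ℝ} (h0 : 0 ≤ t) (h1 : t < η) : zr η t ^ 2 < 1 := by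
  have h := Z_norm_lt_one hη (s := (t : ℂ)) (by simpa using h0) (by simpa using h1)
  rw [Z_ofReal, Complex.norm_real, Real.norm_eq_abs] at h
  exact (sq_lt_one_iff_abs_lt_one _).2 h

theorem zr_strictMono : StrictMonoOn (zr η) (Icc 0 η) := by
  apply strictMonoOn_of_deriv_pos (convex_Icc _ _) (zr_cont hη)
  intro t ht
  rw [interior_Icc] at ht
  have h0 : |t| < η := abs_lt.2 ⟨by linarith [ht.1], ht.2⟩
  rw [(zr_deriv hη h0).deriv]
  have h1 : 0 < (AA η (t : ℂ)).re := by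
    have hpi := Real.pi_pos
    exact YG.AA_re_pos hη (by simpa using h0) (by simpa using hpi)
  have h2 := zr_sq_lt hη ht.1.le ht.2
  have : 0 < 1 - zr η t ^ 2 := by linarith
  positivity

theorem zr_nonneg {t : ℝ} (h0 : 0 ≤ t) (h1 : t ≤ η) : 0 ≤ zr η t := by
  have := (zr_strictMono hη).monotoneOn (a := 0) (b := t) ⟨le_rfl, hη.le⟩ ⟨h0, h1⟩ h0
  rwa [zr_zero] at this

theorem zr_eta : zr η η = 1 := by
  have h := Z_norm hη (s := (η : ℂ)) (by simp)
  rw [Z_ofReal, Complex.norm_real, Real.norm_eq_abs, abs_of_nonneg (zr_nonneg hη hη.le le_rfl)] at h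
  exact h

theorem om_zr {t : ℝ} (h0 : 0 ≤ t) (h1 : t ≤ η) : om η ((zr η t : ℝ) : ℂ) = t := by
  rw [← Z_ofReal, om_Z hη (by simpa using h0) (by simpa using h1)]
  simp

theorem exists_zr {x : ℝ} (h0 : 0 ≤ x) (h1 : x ≤ 1) : ∃ t : ℝ, 0 ≤ t ∧ t ≤ η ∧ zr η t = x := by
  have h2 := intermediate_value_Icc hη.le (zr_cont hη)
  rw [zr_zero, zr_eta hη] at h2
  obtain ⟨t, ht, hx⟩ := h2 ⟨h0, h1⟩
  exact ⟨t, ht.1, ht.2, hx⟩

theorem zr_om {x : ℝ} (h0 : 0 ≤ x) (h1 : x ≤ 1) : zr η (om η (x : ℂ)) = x := by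
  obtain ⟨t, ht0, ht1, rfl⟩ := exists_zr hη h0 h1
  rw [om_zr hη ht0 ht1]

theorem om_zero : om η 0 = 0 := by
  have := om_zr hη le_rfl hη.le
  rwa [zr_zero, Complex.ofReal_zero] at this

theorem om_real_cont : ContinuousOn (fun x : ℝ => om η (x : ℂ)) (Icc (-1) 1) := by
  have h := om_cont hη
  refine h.comp Complex.continuous_ofReal.continuousOn ?_
  intro x hx
  simp only [Metric.mem_closedBall, dist_zero_right, Complex.norm_real, Real.norm_eq_abs]
  exact abs_le.2 ⟨hx.1, hx.2⟩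

theorem om_real_pos {x : ℝ} (h0 : 0 < x) (h1 : x ≤ 1) : 0 < om η (x : ℂ) := by
  have hn : 0 ≤ om η (x : ℂ) := om_nonneg hη (by
    rw [Complex.norm_real, Real.norm_eq_abs, abs_of_pos h0]; exact h1)
  rcases hn.lt_or_eq with h | h
  · exact h
  · exfalso
    have := zr_om hη h0.le h1
    rw [← h, zr_zero] at this
    linarith

theorem om_real_lt {x : ℝ} (h0 : 0 ≤ x) (h1 : x < 1) : om η (x : ℂ) < η :=
  om_lt hη (by rw [Complex.norm_real, Real.norm_eq_abs, abs_of_nonneg h0]; exact h1)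

/-- `zr' = a0 √(Phi (KK η) zr)` -/
theorem zr_deriv_eq {t : ℝ} (h0 : 0 ≤ t) (h1 : t < η) :
    (AA η (t : ℂ)).re * (1 - zr η t ^ 2) = a0 η * √(Phi (KK η) (zr η t)) := by
  have hab : |t| < η := by rw [abs_of_nonneg h0]; exact h1
  have hJ := jac_Z hη (s := (t : ℂ)) (by simpa using hab)
  rw [AA_real t, Z_ofReal t] at hJ
  have hR : ((AA η (t : ℂ)).re * (1 - zr η t ^ 2)) ^ 2 = a0 η ^ 2 * (1 - zr η t ^ 2) ^ 2
      + b0 η ^ 2 * zr η t ^ 2 := by
    exact_mod_cast hJ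
  have ha := a0_pos hη
  have hpos : 0 < (AA η (t : ℂ)).re := by
    have hpi := Real.pi_pos
    exact YG.AA_re_pos hη (by simpa using hab) (by simpa using hpi)
  have h2 := zr_sq_lt hη h0 h1
  have h3 : 0 ≤ (AA η (t : ℂ)).re * (1 - zr η t ^ 2) := mul_nonneg hpos.le (by linarith)
  have hP : 0 < Phi (KK η) (zr η t) := Phi_pos (by linarith [KK_gt hη])
  have h4 : ((AA η (t : ℂ)).re * (1 - zr η t ^ 2)) ^ 2 = (a0 η * √(Phi (KK η) (zr η t))) ^ 2 := by
    rw [hR, mul_pow, Real.sq_sqrt hP.le, ← KK_mul hη]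
    unfold Phi
    ring
  exact (sq_eq_sq₀ h3 (by positivity)).1 h4

/-- **(J2)** derivative of `om` on the real axis -/
theorem om_deriv {x : ℝ} (h0 : 0 < x) (h1 : x < 1) :
    HasDerivAt (fun x : ℝ => om η (x : ℂ)) (a0 η * √(Phi (KK η) x))⁻¹ x := by
  have hc : ContinuousAt (fun x : ℝ => om η (x : ℂ)) x :=
    (om_real_cont hη).continuousAt (Icc_mem_nhds (by linarith) h1)
  have hs0 : 0 ≤ om η (x : ℂ) := (om_real_pos hη h0 h1.le).le
  have hs1 := om_real_lt hη h0.le h1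
  have hx := zr_om hη h0.le h1.le
  have hd := zr_deriv hη (t := om η (x : ℂ)) (by rw [abs_of_nonneg hs0]; exact hs1)
  rw [zr_deriv_eq hη hs0 hs1, hx] at hd
  have ha := a0_pos hη
  have hP : 0 < Phi (KK η) x := Phi_pos (by linarith [KK_gt hη])
  refine HasDerivAt.of_local_left_inverse hc hd (by positivity) ?_
  filter_upwards [Ioo_mem_nhds h0 h1] with y hy
  exact zr_om hη hy.1.le hy.2.le

/-- `Gf = a0 om`: normalised, derivative `1 / √Phi` -/
noncomputable def Gf (η x : ℝ) : ℝ := a0 η * om η (x : ℂ)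

theorem Gf_deriv {x : ℝ} (h0 : 0 < x) (h1 : x < 1) :
    HasDerivAt (Gf η) (√(Phi (KK η) x))⁻¹ x := by
  have ha := a0_pos hη
  have hP : 0 < Phi (KK η) x := Phi_pos (by linarith [KK_gt hη])
  have h := (om_deriv hη h0 h1).const_mul (a0 η)
  refine h.congr_deriv ?_
  have : 0 < √(Phi (KK η) x) := Real.sqrt_pos.2 hP
  field_simp

theorem Gf_cont : ContinuousOn (Gf η) (Icc 0 1) :=
  ((om_real_cont hη).mono (Icc_subset_Icc (by norm_num) le_rfl)).const_smul (a0 η)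

theorem Gf_zero : Gf η 0 = 0 := by
  unfold Gf
  rw [Complex.ofReal_zero, om_zero hη, mul_zero]

theorem Gf_one : Gf η 1 = a0 η * η := by
  unfold Gf
  rw [om_rim hη (by simp)]

theorem Gf_pos {x : ℝ} (h0 : 0 < x) (h1 : x ≤ 1) : 0 < Gf η x :=
  mul_pos (a0_pos hη) (om_real_pos hη h0 h1)

theorem Gf_strictMono : StrictMonoOn (Gf η) (Icc 0 1) := by
  apply strictMonoOn_of_deriv_pos (convex_Icc _ _) (Gf_cont hη)
  intro x hx
  rw [interior_Icc] at hx
  rw [(Gf_deriv hη hx.1 hx.2).deriv]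
  have hP : 0 < Phi (KK η) x := Phi_pos (by linarith [KK_gt hη])
  have : 0 < √(Phi (KK η) x) := Real.sqrt_pos.2 hP
  positivity

/-- **(J4)** upper bound -/
theorem Gf_le {x : ℝ} (h0 : 0 ≤ x) (h1 : x ≤ 1) : Gf η x ≤ x := by
  have hK := KK_gt hη
  have hd : ∀ y : ℝ, 0 < y → y < 1 → HasDerivAt (fun x : ℝ => x - Gf η x)
      (1 - (√(Phi (KK η) y))⁻¹) y := by
    intro y hy0 hy1
    exact (hasDerivAt_id y).sub (Gf_deriv hη hy0 hy1)
  have hm : MonotoneOn (fun x : ℝ => x - Gf η x) (Icc 0 1) := by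
    apply monotoneOn_of_deriv_nonneg (convex_Icc _ _)
    · exact continuousOn_id.sub (Gf_cont hη)
    · intro y hy
      rw [interior_Icc] at hy
      exact (hd y hy.1 hy.2).differentiableAt.differentiableWithinAt
    · intro y hy
      rw [interior_Icc] at hy
      rw [(hd y hy.1 hy.2).deriv]
      have h2 : 1 ≤ √(Phi (KK η) y) := Real.one_le_sqrt.2 (Phi_ge_one (by linarith))
      have h3 : (√(Phi (KK η) y))⁻¹ ≤ 1 := inv_le_one_of_one_le₀ h2
      linarith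
  have := hm (a := 0) (b := x) ⟨le_rfl, zero_le_one⟩ ⟨h0, h1⟩ h0
  simp only [Gf_zero hη] at this
  linarith

/-- **(J4)** lower bound -/
theorem le_Gf {x : ℝ} (h0 : 0 ≤ x) (h1 : x ≤ 1) : x - KK η / 6 * x ^ 3 ≤ Gf η x := by
  have hK := KK_gt hη
  have hd : ∀ y : ℝ, 0 < y → y < 1 → HasDerivAt (fun x : ℝ => Gf η x - (x - KK η / 6 * x ^ 3))
      ((√(Phi (KK η) y))⁻¹ - (1 - KK η / 6 * (3 * y ^ 2))) y := by
    intro y hy0 hy1
    have h2 : HasDerivAt (fun x : ℝ => x - KK η / 6 * x ^ 3) (1 - KK η / 6 * (3 * y ^ 2)) y := by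
      have h3 := (hasDerivAt_pow 3 y).const_mul (KK η / 6)
      refine ((hasDerivAt_id y).sub h3).congr_deriv ?_
      norm_num
    exact (Gf_deriv hη hy0 hy1).sub h2
  have hm : MonotoneOn (fun x : ℝ => Gf η x - (x - KK η / 6 * x ^ 3)) (Icc 0 1) := by
    apply monotoneOn_of_deriv_nonneg (convex_Icc _ _)
    · apply (Gf_cont hη).sub
      fun_prop
    · intro y hy
      rw [interior_Icc] at hy
      exact (hd y hy.1 hy.2).differentiableAt.differentiableWithinAt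
    · intro y hy
      rw [interior_Icc] at hy
      rw [(hd y hy.1 hy.2).deriv]
      have hP1 : 1 ≤ Phi (KK η) y := Phi_ge_one (by linarith)
      have hs : 0 < √(Phi (KK η) y) := Real.sqrt_pos.2 (by linarith)
      have hss := Real.sq_sqrt (show 0 ≤ Phi (KK η) y by linarith)
      -- `1/s ≥ 1 - (s² - 1)/2`
      have h3 : 1 - (Phi (KK η) y - 1) / 2 ≤ (√(Phi (KK η) y))⁻¹ := by
        generalize √(Phi (KK η) y) = s at hs hss
        rw [← hss, ← one_div, le_div_iff₀ hs]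
        nlinarith [mul_nonneg (sq_nonneg (s - 1)) (by linarith : (0 : ℝ) ≤ s + 2)]
      have h4 : Phi (KK η) y - 1 ≤ KK η * y ^ 2 := by
        unfold Phi
        have h5 : y ^ 2 ≤ 1 := by nlinarith [hy.1, hy.2]
        nlinarith [sq_nonneg y, mul_nonneg (sq_nonneg y) (sub_nonneg.2 h5)]
      nlinarith
  have := hm (a := 0) (b := x) ⟨le_rfl, zero_le_one⟩ ⟨h0, h1⟩ h0
  simp only [Gf_zero hη] at this
  norm_num at this
  linarith

theorem om_le_div {x : ℝ} (h0 : 0 ≤ x) (h1 : x ≤ 1) : om η (x : ℂ) ≤ x / a0 η := by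
  rw [le_div_iff₀ (a0_pos hη), mul_comm]
  exact Gf_le hη h0 h1

theorem le_om {x : ℝ} (h0 : 0 ≤ x) (h1 : x ≤ 1) :
    (x - KK η / 6 * x ^ 3) / a0 η ≤ om η (x : ℂ) := by
  rw [div_le_iff₀ (a0_pos hη), mul_comm (om η (x : ℂ))]
  exact le_Gf hη h0 h1

end

/-! ### comparison of two slits -/

section
variable {η1 : ℝ} (hη : 0 < η) (hη1 : 0 < η1)
include hη hη1

theorem Gf_sub_strictMono (hK : KK η < KK η1) :
    StrictMonoOn (fun x => Gf η x - Gf η1 x) (Icc 0 1) := by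
  apply strictMonoOn_of_deriv_pos (convex_Icc _ _) ((Gf_cont hη).sub (Gf_cont hη1))
  intro x hx
  rw [interior_Icc] at hx
  rw [((Gf_deriv hη hx.1 hx.2).sub (Gf_deriv hη1 hx.1 hx.2)).deriv]
  have hP : 0 < Phi (KK η) x := Phi_pos (by linarith [KK_gt hη])
  have hPP : Phi (KK η) x < Phi (KK η1) x := by
    unfold Phi
    have : 0 < x ^ 2 := pow_pos hx.1 2
    nlinarith
  have h1 : √(Phi (KK η) x) < √(Phi (KK η1) x) := Real.sqrt_lt_sqrt hP.le hPP
  have h0 : 0 < √(Phi (KK η) x) := Real.sqrt_pos.2 hP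
  have h2 : (√(Phi (KK η1) x))⁻¹ < (√(Phi (KK η) x))⁻¹ := by
    rw [inv_lt_inv₀ (h0.trans h1) h0]
    exact h1
  linarith

/-- the longer slit has the larger normalised `om` -/
theorem Gf_le_Gf (hK : KK η < KK η1) {x : ℝ} (h0 : 0 ≤ x) (h1 : x ≤ 1) : Gf η1 x ≤ Gf η x := by
  have := (Gf_sub_strictMono hη hη1 hK).monotoneOn (a := 0) (b := x) ⟨le_rfl, zero_le_one⟩
    ⟨h0, h1⟩ h0
  simp only [Gf_zero hη, Gf_zero hη1] at this
  linarith

/-- strict form on `[x2, 1]`, as a factor -/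
theorem Gf_gap (hK : KK η < KK η1) {x2 : ℝ} (h2 : 0 < x2) (h2' : x2 ≤ 1) :
    ∃ c : ℝ, 0 < c ∧ ∀ x : ℝ, x2 ≤ x → x ≤ 1 → (1 + c) * Gf η1 x ≤ Gf η x := by
  have hm := Gf_sub_strictMono hη hη1 hK
  have hD : 0 < Gf η x2 - Gf η1 x2 := by
    have := hm (a := 0) (b := x2) ⟨le_rfl, zero_le_one⟩ ⟨h2.le, h2'⟩ h2
    simp only [Gf_zero hη, Gf_zero hη1] at this
    linarith
  have hG1 := Gf_pos hη1 one_pos le_rfl
  refine ⟨(Gf η x2 - Gf η1 x2) / Gf η1 1, div_pos hD hG1, fun x hx hx1 => ?_⟩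
  have h3 := hm.monotoneOn (a := x2) (b := x) ⟨h2.le, h2'⟩ ⟨h2.le.trans hx, hx1⟩ hx
  have h4 : Gf η1 x ≤ Gf η1 1 :=
    (Gf_strictMono hη1).monotoneOn ⟨h2.le.trans hx, hx1⟩ ⟨zero_le_one, le_rfl⟩ hx1
  have h5 : (Gf η x2 - Gf η1 x2) / Gf η1 1 * Gf η1 x ≤ Gf η x2 - Gf η1 x2 := by
    rw [div_mul_eq_mul_div, div_le_iff₀ hG1]
    exact mul_le_mul_of_nonneg_left h4 hD.le
  have h6 : Gf η x2 - Gf η1 x2 ≤ Gf η x - Gf η1 x := h3
  linarith

end

end Pool.Agent.Lib.MP_0430e4_lc.YE
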