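import Pool.Agent.Lib.MP_0430e4_lc.YE.J2

/-!
Project ALLCODES, part Y1 (helper74): the strip map on the upper half rectangle, the section on the
right half disc, `om` decreases along arcs: `om η z ≤ om η ‖z‖`.
-/

set_option autoImplicit false

open Filter Topology Set

namespace Pool.Agent.Lib.MP_0430e4_lc.YE

open LPLOW YG
open Complex (I)

variable {η : ℝ}

/-- the open upper half rectangle -/
def Ru (η : ℝ) : Set ℂ := Ioo 0 η ×ℂ Ioo 0 (Real.pi / 2)

theorem mem_Ru {s : ℂ} : s ∈ Ru η ↔ (0 < s.re ∧ s.re < η) ∧ (0 < s.im ∧ s.im < Real.pi / 2) := by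
  unfold Ru
  rw [Complex.mem_reProdIm]
  rfl

section
variable (hη : 0 < η)
include hη

theorem Z_ne_zero {s : ℂ} (h0 : 0 < s.re) (h1 : s.re < η) (hi : |s.im| < Real.pi / 2) :
    Z η s ≠ 0 := by
  intro h
  have := YG.Z_re_pos hη h0 h1 hi
  rw [h] at this
  simp at this

/-- `Im Z > 0` on the upper half rectangle -/
theorem Z_im_pos {s : ℂ} (hs : s ∈ Ru η) : 0 < (Z η s).im := by
  obtain ⟨⟨h0, h1⟩, h2, h3⟩ := mem_Ru.1 hs
  have habs : |s.re| < η := abs_lt.2 ⟨by linarith, h1⟩
  have hi : |s.im| < Real.pi / 2 := abs_lt.2 ⟨by linarith, h3⟩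
  have hpi := Real.pi_pos
  -- `Im L ≥ 0`
  have hL0 : 0 ≤ (LL η s).im := im_L_nonneg hη habs h2.le (by linarith)
  have hL1 : |(LL η s).im| < Real.pi / 4 := LL_im_lt hη habs hi
  have hL2 := (abs_lt.1 hL1).2
  have e1 := one_sub_Z hη habs
  have hne := one_add_Z_ne hη habs
  have e2 : (1 - Z η s) * starRingEnd ℂ (1 + Z η s)
      = Complex.exp (-2 * LL η s) * (Complex.normSq (1 + Z η s) : ℂ) := by
    rw [e1, mul_assoc, Complex.mul_conj]
  have e3 := congrArg Complex.im e2
  rw [Complex.im_mul_ofReal] at e3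
  have e4 : ((1 - Z η s) * starRingEnd ℂ (1 + Z η s)).im = -2 * (Z η s).im := by
    simp
    ring
  have e5 : (Complex.exp (-2 * LL η s)).im ≤ 0 := by
    rw [Complex.exp_im]
    apply mul_nonpos_of_nonneg_of_nonpos (Real.exp_pos _).le
    have e6 : (-2 * LL η s).im = -(2 * (LL η s).im) := by simp
    rw [e6, Real.sin_neg]
    have := Real.sin_nonneg_of_nonneg_of_le_pi (x := 2 * (LL η s).im) (by linarith) (by linarith)
    linarith
  have e7 : 0 ≤ (Z η s).im := by
    rw [e4] at e3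
    have := Complex.normSq_nonneg (1 + Z η s)
    nlinarith [mul_nonneg (neg_nonneg.2 e5) this]
  rcases e7.lt_or_eq with h | h
  · exact h
  exfalso
  -- `Z s` real: then `s` is real
  have hx0 : 0 < (Z η s).re := YG.Z_re_pos hη h0 h1 hi
  have hzr : Z η s = (((Z η s).re : ℝ) : ℂ) := by
    apply Complex.ext
    · simp
    · simp [← h]
  have hx1 : (Z η s).re < 1 := lt_of_le_of_lt (Complex.re_le_norm _) (Z_norm_lt_one hη h0.le h1)
  obtain ⟨t, ht0, ht1, ht⟩ := exists_zr hη hx0.le hx1.le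
  have ht2 : t < η := by
    rcases ht1.lt_or_eq with h | h
    · exact h
    · rw [h, zr_eta hη] at ht
      linarith
  have h5 : Z η s = Z η (t : ℂ) := by rw [hzr, Z_ofReal, ht]
  have h6 := Z_inj hη h0.le h1 hi.le (b := (t : ℂ)) (by simpa using ht0) (by simpa using ht2)
    (by simp; positivity) h5
  rw [h6] at h2
  simp at h2

/-- logarithmic derivative of the strip map -/
noncomputable def VV (η : ℝ) (s : ℂ) : ℂ := AA η s * (1 - Z η s ^ 2) / Z η s

theorem VV_sq {s : ℂ} (habs : |s.re| < η) (hz : Z η s ≠ 0) :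
    VV η s ^ 2 = (a0 η : ℂ) ^ 2 * ((Z η s)⁻¹ - Z η s) ^ 2 + (b0 η : ℂ) ^ 2 := by
  unfold VV
  rw [div_pow, jac_Z hη habs]
  field_simp

theorem VV_sq_im {s : ℂ} (hs : s ∈ Ru η) : (VV η s ^ 2).im < 0 := by
  obtain ⟨⟨h0, h1⟩, h2, h3⟩ := mem_Ru.1 hs
  have habs : |s.re| < η := abs_lt.2 ⟨by linarith, h1⟩
  have hi : |s.im| < Real.pi / 2 := abs_lt.2 ⟨by linarith, h3⟩
  have hz := Z_ne_zero hη h0 h1 hi
  have hx := YG.Z_re_pos hη h0 h1 hi
  have hy := Z_im_pos hη hs
  have hn := Z_norm_lt_one hη h0.le h1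
  have ha := a0_pos hη
  rw [VV_sq hη habs hz]
  set z := Z η s with hzdef
  have hN : 0 < Complex.normSq z := Complex.normSq_pos.2 hz
  have hN1 : Complex.normSq z < 1 := by
    rw [Complex.normSq_eq_norm_sq]
    have := norm_nonneg z
    nlinarith
  have hr : (z⁻¹ - z).re = z.re * (1 / Complex.normSq z - 1) := by
    rw [Complex.sub_re, Complex.inv_re]
    ring
  have him : (z⁻¹ - z).im = -(z.im * (1 / Complex.normSq z + 1)) := by
    rw [Complex.sub_im, Complex.inv_im]
    ring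
  have hr0 : 0 < (z⁻¹ - z).re := by
    rw [hr]
    apply mul_pos hx
    have : 1 < 1 / Complex.normSq z := by rw [lt_div_iff₀ hN]; linarith
    linarith
  have him0 : (z⁻¹ - z).im < 0 := by
    rw [him]
    have : 0 < 1 / Complex.normSq z := by positivity
    have : 0 < z.im * (1 / Complex.normSq z + 1) := by positivity
    linarith
  have e1 : ((a0 η : ℂ) ^ 2 * (z⁻¹ - z) ^ 2 + (b0 η : ℂ) ^ 2).im
      = a0 η ^ 2 * (2 * (z⁻¹ - z).re * (z⁻¹ - z).im) := by
    have h4 : ((a0 η : ℂ) ^ 2) = ((a0 η ^ 2 : ℝ) : ℂ) := by push_cast; rfl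
    have h5 : ((b0 η : ℂ) ^ 2) = ((b0 η ^ 2 : ℝ) : ℂ) := by push_cast; rfl
    rw [h4, h5, Complex.add_im, Complex.im_ofReal_mul, Complex.ofReal_im, add_zero]
    congr 1
    rw [pow_two, Complex.mul_im]
    ring
  rw [e1]
  have : 0 < a0 η ^ 2 := by positivity
  have h6 : 2 * (z⁻¹ - z).re * (z⁻¹ - z).im < 0 := by nlinarith
  nlinarith

theorem VV_cont {s : ℂ} (habs : |s.re| < η) (hz : Z η s ≠ 0) : ContinuousAt (VV η) s := by
  have h1 := (Z_deriv hη habs).continuousAt
  have h2 := (AA_diff hη habs).continuousAt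
  exact (h2.mul (continuousAt_const.sub (h1.pow 2))).div h1 hz

/-- `Re V > 0`, `Im V < 0` on the upper half rectangle -/
theorem VV_quad {s : ℂ} (hs : s ∈ Ru η) : 0 < (VV η s).re ∧ (VV η s).im < 0 := by
  have hpi := Real.pi_pos
  have hcont : ContinuousOn (fun s => (VV η s).re) (Ru η) := by
    intro t ht
    obtain ⟨⟨h0, h1⟩, h2, h3⟩ := mem_Ru.1 ht
    have := VV_cont hη (s := t) (abs_lt.2 ⟨by linarith, h1⟩)
      (Z_ne_zero hη h0 h1 (abs_lt.2 ⟨by linarith, h3⟩))
    exact (Complex.continuous_re.continuousAt.comp this).continuousWithinAt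
  have hconn : IsPreconnected (Ru η) := (YG.convex_rect 0 η 0 (Real.pi / 2)).isPreconnected
  have hne : ∀ t ∈ Ru η, (VV η t).re ≠ 0 := by
    intro t ht h
    have h1 := VV_sq_im hη ht
    rw [pow_two, Complex.mul_im, h] at h1
    simp at h1
  -- a point with positive real part
  obtain ⟨p, hp, hppos⟩ : ∃ p ∈ Ru η, 0 < (VV η p).re := by
    set t : ℝ := η / 2 with htdef
    have ht0 : 0 < t := by positivity
    have ht1 : t < η := by rw [htdef]; linarith
    have habs : |((t : ℂ)).re| < η := by simpa [abs_of_pos ht0] using ht1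
    have hzn : Z η (t : ℂ) ≠ 0 :=
      Z_ne_zero hη (by simpa using ht0) (by simpa using ht1) (by simpa using hpi)
    have hc := VV_cont hη habs hzn
    have hv : 0 < (VV η (t : ℂ)).re := by
      unfold VV
      rw [AA_real t, Z_ofReal t]
      have e : (((AA η (t : ℂ)).re : ℝ) : ℂ) * (1 - ((zr η t : ℝ) : ℂ) ^ 2) / ((zr η t : ℝ) : ℂ)
          = (((AA η (t : ℂ)).re * (1 - zr η t ^ 2) / zr η t : ℝ) : ℂ) := by push_cast; ring
      rw [e, Complex.ofReal_re, zr_deriv_eq hη ht0.le ht1]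
      have hzr : 0 < zr η t := by
        have := zr_strictMono hη (a := 0) (b := t) ⟨le_rfl, hη.le⟩ ⟨ht0.le, ht1.le⟩ ht0
        rwa [zr_zero] at this
      have ha := a0_pos hη
      have hP : 0 < Phi (KK η) (zr η t) := Phi_pos (by linarith [KK_gt hη])
      have : 0 < √(Phi (KK η) (zr η t)) := Real.sqrt_pos.2 hP
      positivity
    have hc2 : ContinuousAt (fun e : ℝ => (VV η ((t : ℂ) + e * I)).re) 0 := by
      have h1 : ContinuousAt (fun e : ℝ => (t : ℂ) + e * I) 0 := by fun_prop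
      have h2 : ContinuousAt (VV η) ((t : ℂ) + ((0 : ℝ) : ℂ) * I) := by simpa using hc
      have h3 : ContinuousAt (fun e : ℝ => VV η ((t : ℂ) + e * I)) 0 :=
        ContinuousAt.comp (g := VV η) (f := fun e : ℝ => (t : ℂ) + e * I) h2 h1
      exact Complex.continuous_re.continuousAt.comp h3
    have hv2 : 0 < (fun e : ℝ => (VV η ((t : ℂ) + e * I)).re) 0 := by simpa using hv
    have hev := hc2.eventually_const_lt hv2
    obtain ⟨r, hr, h3⟩ := Metric.eventually_nhds_iff.mp hev
    have hm : 0 < min (r / 2) (Real.pi / 4) := lt_min (by positivity) (by positivity)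
    refine ⟨(t : ℂ) + (min (r / 2) (Real.pi / 4) : ℝ) * I, ?_, h3 ?_⟩
    · rw [mem_Ru]
      have e1 : ((t : ℂ) + (min (r / 2) (Real.pi / 4) : ℝ) * I).re = t := by simp
      have e2 : ((t : ℂ) + (min (r / 2) (Real.pi / 4) : ℝ) * I).im = min (r / 2) (Real.pi / 4) := by
        simp
      rw [e1, e2]
      exact ⟨⟨ht0, ht1⟩, hm, lt_of_le_of_lt (min_le_right _ _) (by linarith)⟩
    · rw [Real.dist_eq, sub_zero, abs_of_pos hm]
      exact lt_of_le_of_lt (min_le_left _ _) (by linarith)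
  have hre : 0 < (VV η s).re := by
    by_contra hcon
    push Not at hcon
    have h1 := hconn.intermediate_value hs hp hcont
    obtain ⟨c, hc, h2⟩ := h1 (show (0 : ℝ) ∈ Icc ((fun s => (VV η s).re) s)
      ((fun s => (VV η s).re) p) from ⟨hcon, hppos.le⟩)
    exact hne c hc h2
  refine ⟨hre, ?_⟩
  have h1 := VV_sq_im hη hs
  rw [pow_two, Complex.mul_im] at h1
  by_contra hcon
  push Not at hcon
  nlinarith [mul_nonneg hre.le hcon]

/-- `Z' = V Z` -/
theorem VV_mul {s : ℂ} (hz : Z η s ≠ 0) : VV η s * Z η s = AA η s * (1 - Z η s ^ 2) := by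
  unfold VV
  rw [div_mul_cancel₀ _ hz]

/-- `|Z(σ + it)|` increases with `t` in `[0, π/2]` -/
theorem normSq_strictMono {σ : ℝ} (h0 : 0 < σ) (h1 : σ < η) :
    StrictMonoOn (fun t : ℝ => Complex.normSq (Z η (σ + t * I))) (Icc 0 (Real.pi / 2)) := by
  have hre : ∀ t : ℝ, ((σ : ℂ) + t * I).re = σ := by intro t; simp
  have hab : ∀ t : ℝ, |((σ : ℂ) + t * I).re| < η := by
    intro t; rw [hre, abs_of_pos h0]; exact h1
  have hd : ∀ t : ℝ, HasDerivAt (fun t : ℝ => Z η (σ + t * I))
      (AA η (σ + t * I) * (1 - Z η (σ + t * I) ^ 2) * I) t := by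
    intro t
    have h3 := Z_deriv hη (hab t)
    have h4 : HasDerivAt (fun t : ℂ => (σ : ℂ) + t * I) I (t : ℂ) := by
      simpa using ((hasDerivAt_id (t : ℂ)).mul_const I).const_add (σ : ℂ)
    exact (h3.comp (t : ℂ) h4).comp_ofReal
  have hN : ∀ t : ℝ, HasDerivAt (fun t : ℝ => Complex.normSq (Z η (σ + t * I)))
      (2 * (starRingEnd ℂ (Z η (σ + t * I)) *
        (AA η (σ + t * I) * (1 - Z η (σ + t * I) ^ 2) * I)).re) t := by
    intro t
    have h5 := hd t
    have hr := hasDerivAt_re h5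
    have hi := hasDerivAt_im h5
    have h6 := (hr.mul hr).add (hi.mul hi)
    have e : (fun t : ℝ => Complex.normSq (Z η (σ + t * I)))
        = fun t : ℝ => (Z η (σ + t * I)).re * (Z η (σ + t * I)).re
          + (Z η (σ + t * I)).im * (Z η (σ + t * I)).im := by
      funext t; exact Complex.normSq_apply _
    rw [e]
    refine h6.congr_deriv ?_
    generalize AA η (σ + t * I) * (1 - Z η (σ + t * I) ^ 2) * I = W
    simp only [Complex.mul_re, Complex.conj_re, Complex.conj_im]
    ring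
  apply strictMonoOn_of_deriv_pos (convex_Icc _ _)
  · intro t _
    exact (hN t).continuousAt.continuousWithinAt
  · intro t ht
    rw [interior_Icc] at ht
    rw [(hN t).deriv]
    have hs : ((σ : ℂ) + t * I) ∈ Ru η := by
      rw [mem_Ru]
      simp
      exact ⟨⟨h0, h1⟩, ht.1, ht.2⟩
    have hz : Z η (σ + t * I) ≠ 0 := Z_ne_zero hη (by rw [hre]; exact h0) (by rw [hre]; exact h1)
      (by simp; exact abs_lt.2 ⟨by linarith [ht.1, Real.pi_pos], ht.2⟩)
    rw [← VV_mul hη hz]
    have e : starRingEnd ℂ (Z η (σ + t * I)) * (VV η (σ + t * I) * Z η (σ + t * I) * I)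
        = (Complex.normSq (Z η (σ + t * I)) : ℂ) * (VV η (σ + t * I) * I) := by
      have := Complex.mul_conj (Z η (σ + t * I))
      rw [← this]
      ring
    rw [e, Complex.re_ofReal_mul]
    have h7 := (VV_quad hη hs).2
    have h8 : 0 < Complex.normSq (Z η (σ + t * I)) := Complex.normSq_pos.2 hz
    have h9 : (VV η (σ + t * I) * I).re = -(VV η (σ + t * I)).im := by simp
    rw [h9]
    have : 0 < Complex.normSq (Z η (σ + t * I)) * -(VV η (σ + t * I)).im :=
      mul_pos h8 (by linarith)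
    linarith

/-- `|Z(s)| ≥ Z(Re s)` -/
theorem zr_le_norm {s : ℂ} (h0 : 0 ≤ s.re) (h1 : s.re ≤ η) : zr η s.re ≤ ‖Z η s‖ := by
  rcases h0.eq_or_lt with h | h0
  · rw [← h, zr_zero]
    exact norm_nonneg _
  rcases h1.eq_or_lt with h | h1
  · rw [h, zr_eta hη, Z_norm hη h]
  -- the upper half
  have up : ∀ t : ℂ, 0 < t.re → t.re < η → 0 ≤ t.im → t.im ≤ Real.pi / 2 →
      zr η t.re ≤ ‖Z η t‖ := by
    intro t a0 a1 a2 a3
    have h2 := (normSq_strictMono hη a0 a1).monotoneOn (a := 0) (b := t.im)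
      ⟨le_rfl, by positivity⟩ ⟨a2, a3⟩ a2
    simp only [Complex.ofReal_zero, zero_mul, add_zero] at h2
    have e : ((t.re : ℂ) + t.im * I) = t := Complex.re_add_im t
    rw [e, Z_ofReal, Complex.normSq_ofReal, Complex.normSq_eq_norm_sq] at h2
    have h3 := zr_nonneg hη a0.le a1.le
    have h4 := norm_nonneg (Z η t)
    nlinarith
  have mid : ∀ t : ℂ, 0 < t.re → t.re < η → |t.im| ≤ Real.pi / 2 → zr η t.re ≤ ‖Z η t‖ := by
    intro t a0 a1 a2
    rcases le_total 0 t.im with h | h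
    · exact up t a0 a1 h ((le_abs_self _).trans a2)
    · have h2 := up (starRingEnd ℂ t) (by simpa using a0) (by simpa using a1) (by simpa using h)
        (by simpa using ((neg_le_abs _).trans a2))
      rw [Z_conj, Complex.norm_conj] at h2
      simpa using h2
  obtain ⟨t, k, ht, hti, hs⟩ := reduce s
  have h5 := mid t (by rw [ht]; exact h0) (by rw [ht]; exact h1) hti
  rw [ht] at h5
  rcases hs with hs | hs
  · rw [hs, Z_add_int]
    have : (t + k * (2 * Real.pi * I)).re = s.re := by rw [re_shift, ht]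
    rw [this]
    exact h5
  · rw [hs, Z_add_int, Z_add_pi, norm_neg]
    have : (t + Real.pi * I + k * (2 * Real.pi * I)).re = s.re := by
      rw [re_shift]
      simp [ht]
    rw [this]
    exact h5

theorem om_real_mono : MonotoneOn (fun x : ℝ => om η (x : ℂ)) (Icc 0 1) := by
  intro x hx y hy hxy
  have h := (Gf_strictMono hη).monotoneOn hx hy hxy
  unfold Gf at h
  exact le_of_mul_le_mul_left h (a0_pos hη)

/-- **(F2)** `om` is largest on the positive axis -/
theorem om_le_abs {z : ℂ} (hz : ‖z‖ ≤ 1) : om η z ≤ om η ((‖z‖ : ℝ) : ℂ) := by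
  have h0 := sec_re_nonneg hη hz
  have h1 := sec_re_le hη hz
  have h2 := zr_le_norm hη h0 h1
  rw [Z_sec hη hz] at h2
  have h3 := om_real_mono hη (a := zr η (sec η z).re) (b := ‖z‖)
    ⟨zr_nonneg hη h0 h1, h2.trans hz⟩ ⟨norm_nonneg _, hz⟩ h2
  simp only at h3
  rw [om_zr hη h0 h1] at h3
  exact h3

/-! ### the section on the right half disc -/

theorem mem_Rp_of {s : ℂ} (hs : s ∈ Kc η) (hn : ‖Z η s‖ < 1) (hr : 0 < (Z η s).re) : s ∈ Rp η := by
  have hpi := Real.pi_pos
  have h1 := mem_Kc.1 hs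
  have h2 := re_lt_of_norm hη hs hn
  rw [mem_Rp]
  have h0 : 0 < s.re := by
    rcases h1.1.1.lt_or_eq with h | h
    · exact h
    · rw [Z_re_zero h.symm] at hr
      exact absurd hr (lt_irrefl _)
  refine ⟨⟨h0, h2⟩, ?_⟩
  rcases le_or_gt s.im (Real.pi / 2) with h | h
  · rcases h.lt_or_eq with h | h
    · rcases h1.2.1.lt_or_eq with h3 | h3
      · exact abs_lt.2 ⟨h3, h⟩
      · rw [Z_re_line' h3.symm] at hr
        exact absurd hr (lt_irrefl _)
    · rw [Z_re_line h] at hr
      exact absurd hr (lt_irrefl _)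
  · exfalso
    have h3 : Z η s = -Z η (s - Real.pi * I) := by
      rw [← Z_add_pi]
      congr 1
      ring
    have h4 : 0 ≤ (Z η (s - Real.pi * I)).re := by
      apply Z_re_nonneg hη
      · simpa using h0.le
      · simpa using h2
      · rw [abs_le]
        simp
        constructor <;> linarith [h1.2.2]
    rw [h3] at hr
    simp at hr
    linarith

theorem sec_mem_Rp {z : ℂ} (hz : ‖z‖ < 1) (hr : 0 < z.re) : sec η z ∈ Rp η := by
  have h := sec_spec hη hz.le
  exact mem_Rp_of hη h.1 (by rw [h.2]; exact hz) (by rw [h.2]; exact hr)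

theorem sec_cont {z0 : ℂ} (hz : ‖z0‖ < 1) (hr : 0 < z0.re) : ContinuousAt (sec η) z0 := by
  unfold ContinuousAt
  rw [tendsto_iff_ultrafilter]
  intro g hg
  have hball : Metric.ball (0 : ℂ) 1 ∈ 𝓝 z0 := Metric.isOpen_ball.mem_nhds (by simpa using hz)
  have hev : ∀ᶠ z in (g : Filter ℂ), ‖z‖ < 1 := by
    have := hg hball
    filter_upwards [this] with z hz
    simpa using hz
  have hK : (g.map (sec η) : Filter ℂ) ≤ 𝓟 (Kc η) := by
    rw [le_principal_iff, Ultrafilter.mem_coe, Ultrafilter.mem_map]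
    filter_upwards [hev] with z hz
    exact (sec_spec hη hz.le).1
  obtain ⟨s, hs, hlim⟩ := Kc_compact.ultrafilter_le_nhds (g.map (sec η)) hK
  have hσs : Tendsto (sec η) (g : Filter ℂ) (𝓝 s) := hlim
  have hs' := mem_Kc.1 hs
  have h1 : Tendsto (fun z => Z η (sec η z)) (g : Filter ℂ) (𝓝 (Z η s)) :=
    (Z_cont hη (by rw [abs_of_nonneg hs'.1.1]; exact hs'.1.2)).tendsto.comp hσs
  have h2 : Tendsto (fun z => Z η (sec η z)) (g : Filter ℂ) (𝓝 z0) := by
    have h3 : Tendsto (fun z : ℂ => z) (g : Filter ℂ) (𝓝 z0) := hg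
    refine h3.congr' ?_
    filter_upwards [hev] with z hz
    exact (Z_sec hη hz.le).symm
  have h3 : Z η s = z0 := tendsto_nhds_unique h1 h2
  have h4 : s ∈ Rp η := mem_Rp_of hη hs (by rw [h3]; exact hz) (by rw [h3]; exact hr)
  have h5 := sec_mem_Rp hη hz hr
  have h6 : s = sec η z0 := by
    have a := mem_Rp.1 h4
    have b := mem_Rp.1 h5
    exact Z_inj hη a.1.1.le a.1.2 a.2.le b.1.1.le b.1.2 b.2.le (by rw [h3, Z_sec hη hz.le])
  show Tendsto (sec η) (g : Filter ℂ) (𝓝 (sec η z0))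
  rw [← h6]
  exact hσs

theorem sec_hasDerivAt {z : ℂ} (hz : ‖z‖ < 1) (hr : 0 < z.re) :
    HasDerivAt (sec η) (AA η (sec η z) * (1 - z ^ 2))⁻¹ z := by
  have h1 := mem_Rp.1 (sec_mem_Rp hη hz hr)
  have habs : |(sec η z).re| < η := abs_lt.2 ⟨by linarith [h1.1.1], h1.1.2⟩
  have hd := Z_deriv hη habs
  rw [Z_sec hη hz.le] at hd
  have hne : AA η (sec η z) * (1 - z ^ 2) ≠ 0 := by
    apply mul_ne_zero
    · intro h
      have := YG.AA_re_pos hη habs h1.2
      rw [h] at this
      simp at this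
    · have h2 := one_sub_Z_ne hη habs
      have h3 := one_add_Z_ne hη habs
      rw [Z_sec hη hz.le] at h2 h3
      rw [show (1 : ℂ) - z ^ 2 = (1 - z) * (1 + z) by ring]
      exact mul_ne_zero h2 h3
  refine HasDerivAt.of_local_left_inverse (sec_cont hη hz hr) hd hne ?_
  filter_upwards [Metric.isOpen_ball.mem_nhds (by simpa using hz : z ∈ Metric.ball (0 : ℂ) 1)]
    with y hy
  have hy' : ‖y‖ < 1 := by simpa using hy
  exact Z_sec hη hy'.le

/-- the section maps the open first quadrant of the disc to the upper half rectangle -/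
theorem sec_mem_Ru {z : ℂ} (hz : ‖z‖ < 1) (hr : 0 < z.re) (hi : 0 < z.im) : sec η z ∈ Ru η := by
  have h1 := mem_Rp.1 (sec_mem_Rp hη hz hr)
  have h2 := (abs_lt.1 h1.2)
  rw [mem_Ru]
  refine ⟨h1.1, ?_, h2.2⟩
  by_contra hcon
  push Not at hcon
  rcases hcon.lt_or_eq with h | h
  · have h3 := Z_im_pos hη (s := starRingEnd ℂ (sec η z)) (by
      rw [mem_Ru]
      simp
      exact ⟨h1.1, h, by linarith [h2.1]⟩)
    rw [Z_conj, Z_sec hη hz.le] at h3
    simp at h3
    linarith
  · have h3 : sec η z = (((sec η z).re : ℝ) : ℂ) := by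
      apply Complex.ext
      · simp
      · simp [h]
    have h4 := Z_sec hη hz.le
    rw [h3, Z_ofReal] at h4
    rw [← h4] at hi
    simp at hi

/-- **`om` decreases along arcs** -/
theorem om_arc_anti {r : ℝ} (h0 : 0 < r) (h1 : r < 1) :
    StrictAntiOn (fun φ : ℝ => om η (r * Complex.exp (φ * I))) (Icc 0 (Real.pi / 2)) := by
  have hnorm : ∀ φ : ℝ, ‖(r : ℂ) * Complex.exp (φ * I)‖ = r := by
    intro φ
    rw [norm_mul, Complex.norm_exp_ofReal_mul_I, mul_one, Complex.norm_real, Real.norm_eq_abs,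
      abs_of_pos h0]
  have hcurve : Continuous fun φ : ℝ => (r : ℂ) * Complex.exp (φ * I) := by fun_prop
  apply strictAntiOn_of_deriv_neg (convex_Icc _ _)
  · refine (om_cont hη).comp hcurve.continuousOn ?_
    intro φ _
    simp only [Metric.mem_closedBall, dist_zero_right]
    rw [hnorm]
    exact h1.le
  · intro φ hφ
    rw [interior_Icc] at hφ
    have hpi := Real.pi_pos
    set z : ℂ := (r : ℂ) * Complex.exp (φ * I) with hzdef
    have hzn : ‖z‖ < 1 := by rw [hzdef, hnorm]; exact h1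
    have hre : z.re = r * Real.cos φ := by
      rw [hzdef, Complex.re_ofReal_mul, Complex.exp_ofReal_mul_I_re]
    have him : z.im = r * Real.sin φ := by
      rw [hzdef, Complex.im_ofReal_mul, Complex.exp_ofReal_mul_I_im]
    have hr : 0 < z.re := by
      rw [hre]
      exact mul_pos h0 (Real.cos_pos_of_mem_Ioo ⟨by linarith [hφ.1], hφ.2⟩)
    have hi : 0 < z.im := by
      rw [him]
      exact mul_pos h0 (Real.sin_pos_of_pos_of_lt_pi hφ.1 (by linarith [hφ.2]))
    have hs := sec_mem_Ru hη hzn hr hi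
    have hzs := Z_sec hη hzn.le
    have hd1 : HasDerivAt (fun φ : ℝ => (r : ℂ) * Complex.exp (φ * I)) (z * I) φ := by
      have h2 : HasDerivAt (fun φ : ℂ => (r : ℂ) * Complex.exp (φ * I)) (z * I) (φ : ℂ) := by
        have h3 : HasDerivAt (fun φ : ℂ => φ * I) I (φ : ℂ) := by
          simpa using (hasDerivAt_id (φ : ℂ)).mul_const I
        have h4 := (h3.cexp).const_mul (r : ℂ)
        refine h4.congr_deriv ?_
        rw [hzdef]
        ring
      exact h2.comp_ofReal
    have hd2 := (sec_hasDerivAt hη hzn hr)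
    have hd3 : HasDerivAt (fun φ : ℝ => sec η ((r : ℂ) * Complex.exp (φ * I)))
        ((AA η (sec η z) * (1 - z ^ 2))⁻¹ * (z * I)) φ := by
      have h := hd2.scomp φ hd1
      exact h.congr_deriv (by rw [smul_eq_mul, mul_comm])
    have hd4 : HasDerivAt (fun φ : ℝ => om η ((r : ℂ) * Complex.exp (φ * I)))
        ((AA η (sec η z) * (1 - z ^ 2))⁻¹ * (z * I)).re φ := hasDerivAt_re hd3
    rw [hd4.deriv]
    have hz0 : z ≠ 0 := by
      intro h
      rw [h] at hr
      simp at hr
    have hV : AA η (sec η z) * (1 - z ^ 2) = VV η (sec η z) * z := by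
      have := VV_mul hη (s := sec η z) (by rw [hzs]; exact hz0)
      rw [hzs] at this
      exact this.symm
    have hq := VV_quad hη hs
    have hV0 : VV η (sec η z) ≠ 0 := by
      intro h
      rw [h] at hq
      simp at hq
    have e : (AA η (sec η z) * (1 - z ^ 2))⁻¹ * (z * I) = (VV η (sec η z))⁻¹ * I := by
      rw [hV]
      field_simp
    rw [e]
    have e2 : ((VV η (sec η z))⁻¹ * I).re = -((VV η (sec η z))⁻¹).im := by simp
    rw [e2, Complex.inv_im]
    have h5 : 0 < Complex.normSq (VV η (sec η z)) := Complex.normSq_pos.2 hV0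
    have h6 : 0 < -(VV η (sec η z)).im / Complex.normSq (VV η (sec η z)) :=
      div_pos (by linarith [hq.2]) h5
    linarith

end

end Pool.Agent.Lib.MP_0430e4_lc.YE
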