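import Pool.Agent.Lib.MP_0430e4_lc.YE.J3

/-!
Project ALLCODES, part Y1 (helper74): comparison of two slits with rate; the inequality `bR` on
`[x2, 1]`.
-/

set_option autoImplicit false

open Filter Topology Set

namespace Pool.Agent.Lib.MP_0430e4_lc.YE

open LPLOW YG
open Complex (I)

theorem inv_sub_ge {a b B D : ℝ} (ha : 0 < a) (hab : a ≤ b) (hB : b ≤ B)
    (hD : b ^ 2 - a ^ 2 = D) : D / (2 * B ^ 3) ≤ a⁻¹ - b⁻¹ := by
  have hb : 0 < b := ha.trans_le hab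
  have hB0 : 0 < B := hb.trans_le hB
  have h1 : a⁻¹ - b⁻¹ = (b - a) / (a * b) := by
    field_simp
  rw [h1, div_le_div_iff₀ (by positivity) (by positivity)]
  have h2 : D = (b - a) * (b + a) := by rw [← hD]; ring
  rw [h2]
  have h3 : 0 ≤ b - a := by linarith
  have h4 : (b + a) * (a * b) ≤ 2 * B ^ 3 := by
    have h5 : b + a ≤ 2 * B := by linarith
    have h6 : a * b ≤ B * B := mul_le_mul (hab.trans hB) hB hb.le hB0.le
    calc (b + a) * (a * b) ≤ (2 * B) * (B * B) := mul_le_mul h5 h6 (by positivity) (by positivity)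
      _ = 2 * B ^ 3 := by ring
  calc (b - a) * (b + a) * (a * b) = (b - a) * ((b + a) * (a * b)) := by ring
    _ ≤ (b - a) * (2 * B ^ 3) := mul_le_mul_of_nonneg_left h4 h3

variable {η η1 : ℝ}

section
variable (hη : 0 < η) (hη1 : 0 < η1)
include hη hη1

/-- **cubic gap**: `a0(η) om_η(x) - a0(η1) om_η1(x) ≥ cJ x³` -/
theorem Gf_sub_ge (hK : KK η < KK η1) :
    ∃ cJ : ℝ, 0 < cJ ∧ ∀ x : ℝ, 0 ≤ x → x ≤ 1 → cJ * x ^ 3 ≤ Gf η x - Gf η1 x := by
  have hK0 := KK_gt hη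
  have hK1 := KK_gt hη1
  set B : ℝ := 1 + KK η1 with hB
  have hB0 : 0 < B := by linarith
  have hc : 0 < (KK η1 - KK η) / (6 * B ^ 3) := by
    apply div_pos <;> [linarith; positivity]
  refine ⟨(KK η1 - KK η) / (6 * B ^ 3), hc, ?_⟩
  set c : ℝ := (KK η1 - KK η) / (6 * B ^ 3) with hcdef
  have hd : ∀ y : ℝ, 0 < y → y < 1 → HasDerivAt (fun x : ℝ => Gf η x - Gf η1 x - c * x ^ 3)
      ((√(Phi (KK η) y))⁻¹ - (√(Phi (KK η1) y))⁻¹ - c * (3 * y ^ 2)) y := by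
    intro y hy0 hy1
    have h3 : HasDerivAt (fun x : ℝ => c * x ^ 3) (c * (3 * y ^ 2)) y := by
      have := (hasDerivAt_pow 3 y).const_mul c
      refine this.congr_deriv ?_
      norm_num
    exact ((Gf_deriv hη hy0 hy1).sub (Gf_deriv hη1 hy0 hy1)).sub h3
  have hm : MonotoneOn (fun x : ℝ => Gf η x - Gf η1 x - c * x ^ 3) (Icc 0 1) := by
    apply monotoneOn_of_deriv_nonneg (convex_Icc _ _)
    · exact ((Gf_cont hη).sub (Gf_cont hη1)).sub (by fun_prop)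
    · intro y hy
      rw [interior_Icc] at hy
      exact (hd y hy.1 hy.2).differentiableAt.differentiableWithinAt
    · intro y hy
      rw [interior_Icc] at hy
      rw [(hd y hy.1 hy.2).deriv]
      have hP : 0 < Phi (KK η) y := Phi_pos (by linarith)
      have hP1 : 0 < Phi (KK η1) y := Phi_pos (by linarith)
      have hy2 : y ^ 2 ≤ 1 := by nlinarith [hy.1, hy.2]
      have hy0 : 0 ≤ y ^ 2 := sq_nonneg y
      have hPP : Phi (KK η) y ≤ Phi (KK η1) y := by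
        unfold Phi
        nlinarith
      have h1 : √(Phi (KK η) y) ≤ √(Phi (KK η1) y) := Real.sqrt_le_sqrt hPP
      have h2 : √(Phi (KK η1) y) ≤ B := by
        rw [Real.sqrt_le_left hB0.le]
        have h3 : Phi (KK η1) y ≤ 1 + KK η1 := by
          unfold Phi
          have h4 : (1 - y ^ 2) ^ 2 ≤ 1 := by nlinarith
          nlinarith
        rw [hB]
        nlinarith
      have h3 := inv_sub_ge (Real.sqrt_pos.2 hP) h1 h2
        (D := (KK η1 - KK η) * y ^ 2) (by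
          rw [Real.sq_sqrt hP.le, Real.sq_sqrt hP1.le]
          unfold Phi
          ring)
      have h4 : c * (3 * y ^ 2) = (KK η1 - KK η) * y ^ 2 / (2 * B ^ 3) := by
        rw [hcdef]
        field_simp
        ring
      linarith
  intro x h0 h1
  have := hm (a := 0) (b := x) ⟨le_rfl, zero_le_one⟩ ⟨h0, h1⟩ h0
  simp only [Gf_zero hη, Gf_zero hη1] at this
  norm_num at this
  linarith

/-- `a0(η1) η1 < a0(η) η` -/
theorem a0_mul_lt (hK : KK η < KK η1) : a0 η1 * η1 < a0 η * η := by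
  obtain ⟨c, hc, h⟩ := Gf_sub_ge hη hη1 hK
  have := h 1 zero_le_one le_rfl
  rw [Gf_one hη, Gf_one hη1] at this
  linarith

/-- **(bR)** the perturbation is negative on `[x2, 1]` -/
theorem bR (hK : KK η < KK η1) {C : ℝ} (hC : 0 ≤ C) : ∃ N1 : ℝ, 0 < N1 ∧
    ∀ x2 : ℝ, 0 < x2 → x2 ≤ 1 → ∃ m0 : ℝ, 0 < m0 ∧ ∀ N θ k3 : ℝ, N1 ≤ N → 0 ≤ θ → θ ≤ m0 →
      0 ≤ k3 → k3 ≤ m0 → ∀ x : ℝ, x2 ≤ x → x ≤ 1 →
      -om η (x : ℂ) / η + (1 + θ) * (a0 η1 / (η * a0 η)) * (om η1 (x : ℂ) + C * x ^ 4 / N)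
        + k3 * Real.log (1 + x ^ 2 / tip η ^ 2) ≤ -m0 := by
  obtain ⟨cJ, hcJ, hJ⟩ := Gf_sub_ge hη hη1 hK
  have ha := a0_pos hη
  have ha1 := a0_pos hη1
  have ht := tip_pos hη
  refine ⟨8 * a0 η1 * C / cJ + 1, by positivity, fun x2 hx2 hx21 => ?_⟩
  set l : ℝ := Real.log (1 + 1 / tip η ^ 2) with hl
  have hl0 : 0 < l := Real.log_pos (by
    have : 0 < 1 / tip η ^ 2 := by positivity
    linarith)
  set q : ℝ := cJ * x2 ^ 3 / 4 with hq
  have hq0 : 0 < q := by positivity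
  have hA : 0 < a0 η1 * η1 := by positivity
  have hB : 0 < η * a0 η * l := by positivity
  have hD : 0 < η * a0 η := by positivity
  set m0 : ℝ := min (min 1 (q / (a0 η1 * η1))) (min (q / (η * a0 η * l)) (q / (η * a0 η))) with hm
  have hm0 : 0 < m0 := lt_min (lt_min one_pos (by positivity)) (lt_min (by positivity)
    (by positivity))
  have hma : m0 ≤ 1 := (min_le_left _ _).trans (min_le_left _ _)
  have hmb : m0 * (a0 η1 * η1) ≤ q := by
    rw [← le_div_iff₀ hA]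
    exact (min_le_left _ _).trans (min_le_right _ _)
  have hmc : m0 * (η * a0 η * l) ≤ q := by
    rw [← le_div_iff₀ hB]
    exact (min_le_right _ _).trans (min_le_left _ _)
  have hmd : m0 * (η * a0 η) ≤ q := by
    rw [← le_div_iff₀ hD]
    exact (min_le_right _ _).trans (min_le_right _ _)
  refine ⟨m0, hm0, fun N θ k3 hN hθ0 hθ hk0 hk x hx hx1 => ?_⟩
  have hx0 : 0 < x := hx2.trans_le hx
  have hNpos : 0 < N := lt_of_lt_of_le (by positivity) hN
  have hJx := hJ x hx0.le hx1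
  have hG1 : Gf η1 x ≤ a0 η1 * η1 := by
    rw [← Gf_one hη1]
    exact (Gf_strictMono hη1).monotoneOn ⟨hx0.le, hx1⟩ ⟨zero_le_one, le_rfl⟩ hx1
  have hG1' : 0 ≤ Gf η1 x := (Gf_pos hη1 hx0 hx1).le
  -- the term in `1/N`
  have h1 : 2 * (a0 η1 * (C * x ^ 4 / N)) ≤ cJ / 4 * x ^ 3 := by
    have h2 : 8 * a0 η1 * C / cJ ≤ N := by linarith
    rw [div_le_iff₀ hcJ] at h2
    have h3 : x ^ 4 ≤ x ^ 3 := by
      have : x ^ 4 = x ^ 3 * x := by ring
      rw [this]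
      exact mul_le_of_le_one_right (by positivity) hx1
    have h4 : 2 * (a0 η1 * (C * x ^ 4 / N)) = (8 * a0 η1 * C) * x ^ 4 / (4 * N) := by
      field_simp
      ring
    rw [h4, div_le_iff₀ (by positivity)]
    calc 8 * a0 η1 * C * x ^ 4 ≤ (N * cJ) * x ^ 3 :=
          mul_le_mul h2 h3 (by positivity) (by positivity)
      _ = cJ / 4 * x ^ 3 * (4 * N) := by ring
  have hx3 : x2 ^ 3 ≤ x ^ 3 := pow_le_pow_left₀ hx2.le hx 3
  -- the logarithm
  have h5 : Real.log (1 + x ^ 2 / tip η ^ 2) ≤ l := by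
    apply Real.log_le_log (by positivity)
    have : x ^ 2 / tip η ^ 2 ≤ 1 / tip η ^ 2 := by
      apply div_le_div_of_nonneg_right _ (by positivity)
      nlinarith
    linarith
  have h5' : 0 ≤ Real.log (1 + x ^ 2 / tip η ^ 2) := Real.log_nonneg (by
    have : 0 ≤ x ^ 2 / tip η ^ 2 := by positivity
    linarith)
  have h6 : k3 * Real.log (1 + x ^ 2 / tip η ^ 2) * (η * a0 η) ≤ q := by
    calc k3 * Real.log (1 + x ^ 2 / tip η ^ 2) * (η * a0 η) ≤ m0 * l * (η * a0 η) := by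
          apply mul_le_mul_of_nonneg_right _ hD.le
          exact mul_le_mul hk h5 h5' hm0.le
      _ = m0 * (η * a0 η * l) := by ring
      _ ≤ q := hmc
  have h7 : θ * Gf η1 x ≤ q := by
    calc θ * Gf η1 x ≤ m0 * (a0 η1 * η1) := mul_le_mul hθ hG1 hG1' hm0.le
      _ ≤ q := hmb
  have h8 : (1 + θ) * (a0 η1 * (C * x ^ 4 / N)) ≤ cJ / 4 * x ^ 3 := by
    have h9 : 0 ≤ a0 η1 * (C * x ^ 4 / N) := by positivity
    nlinarith
  have h10 : q ≤ cJ / 4 * x ^ 3 := by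
    rw [hq]
    nlinarith
  have h11 : (-om η (x : ℂ) / η + (1 + θ) * (a0 η1 / (η * a0 η)) *
      (om η1 (x : ℂ) + C * x ^ 4 / N) + k3 * Real.log (1 + x ^ 2 / tip η ^ 2)) * (η * a0 η)
      = -Gf η x + (1 + θ) * Gf η1 x + (1 + θ) * (a0 η1 * (C * x ^ 4 / N))
        + k3 * Real.log (1 + x ^ 2 / tip η ^ 2) * (η * a0 η) := by
    unfold Gf
    field_simp
    ring
  have h12 : (-om η (x : ℂ) / η + (1 + θ) * (a0 η1 / (η * a0 η)) *
      (om η1 (x : ℂ) + C * x ^ 4 / N) + k3 * Real.log (1 + x ^ 2 / tip η ^ 2)) * (η * a0 η)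
      ≤ -m0 * (η * a0 η) := by
    rw [h11]
    nlinarith
  exact le_of_mul_le_mul_right h12 hD

end

end Pool.Agent.Lib.MP_0430e4_lc.YE
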