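import Pool.Agent.Lib.MP_0430e4_lc.YE.J4

/-!
Project ALLCODES, part Y1 (helper74): the perturbation off the real axis.

`pert` at `z` is at most the value of its positive part at `‖z‖` minus `om η z / η`; near the real
axis it is negative on `x2 ≤ ‖z‖ ≤ 1`.
-/

set_option autoImplicit false

open Filter Topology Set

namespace Pool.Agent.Lib.MP_0430e4_lc.YE

open LPLOW YG
open Complex (I)

variable {η η1 : ℝ}

/-- the perturbation -/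
noncomputable def pert (η η1 N θ k3 C : ℝ) (z : ℂ) : ℝ :=
  -om η z / η + (1 + θ) * (a0 η1 / (η * a0 η)) * (om η1 z + C * ‖z‖ ^ 4 / N)
    + k3 * Real.log ‖1 + z ^ 2 / (tip η : ℂ) ^ 2‖

theorem norm_one_add_le (y : ℝ) (z : ℂ) :
    ‖1 + z ^ 2 / (y : ℂ) ^ 2‖ ≤ 1 + ‖z‖ ^ 2 / y ^ 2 := by
  refine (norm_add_le _ _).trans ?_
  rw [norm_one, norm_div, norm_pow, norm_pow, Complex.norm_real, Real.norm_eq_abs, sq_abs]

theorem log_norm_le {y : ℝ} (_hy : 0 < y) (z : ℂ) :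
    Real.log ‖1 + z ^ 2 / (y : ℂ) ^ 2‖ ≤ Real.log (1 + ‖z‖ ^ 2 / y ^ 2) := by
  rcases (norm_nonneg (1 + z ^ 2 / (y : ℂ) ^ 2)).eq_or_lt with h | h
  · rw [← h, Real.log_zero]
    apply Real.log_nonneg
    have : 0 ≤ ‖z‖ ^ 2 / y ^ 2 := by positivity
    linarith
  · exact Real.log_le_log h (norm_one_add_le y z)

section
variable (hη : 0 < η)
include hη

/-- `om η z` is close to `om η ‖z‖` near the positive axis -/
theorem om_unif {ε : ℝ} (hε : 0 < ε) : ∃ φ0 : ℝ, 0 < φ0 ∧ ∀ z : ℂ, ‖z‖ ≤ 1 → |z.arg| ≤ φ0 →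
    om η ((‖z‖ : ℝ) : ℂ) - ε ≤ om η z := by
  have hu : UniformContinuousOn (om η) (Metric.closedBall 0 1) :=
    (isCompact_closedBall 0 1).uniformContinuousOn_of_continuous (om_cont hη)
  rw [Metric.uniformContinuousOn_iff] at hu
  obtain ⟨d, hd, h⟩ := hu ε hε
  refine ⟨d / 2, by positivity, fun z hz harg => ?_⟩
  have h1 : dist ((‖z‖ : ℝ) : ℂ) z < d := by
    have e : z = ‖z‖ * Complex.exp (z.arg * I) := (Complex.norm_mul_exp_arg_mul_I z).symm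
    have h2 : ((‖z‖ : ℝ) : ℂ) - z = -(‖z‖ * (Complex.exp (I * z.arg) - 1)) := by
      nth_rewrite 2 [e]
      rw [mul_comm (z.arg : ℂ) I]
      ring
    rw [dist_eq_norm, h2, norm_neg, norm_mul, Complex.norm_real, norm_norm]
    have h3 : ‖Complex.exp (I * z.arg) - 1‖ ≤ ‖z.arg‖ := Real.norm_exp_I_mul_ofReal_sub_one_le
    rw [Real.norm_eq_abs] at h3
    have h4 : ‖z‖ * ‖Complex.exp (I * z.arg) - 1‖ ≤ 1 * |z.arg| :=
      mul_le_mul hz h3 (norm_nonneg _) zero_le_one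
    linarith
  have h5 := h ((‖z‖ : ℝ) : ℂ) (by simpa using hz) z (by simpa using hz) h1
  rw [Real.dist_eq] at h5
  linarith [(abs_lt.1 h5).2]

end

section
variable (hη : 0 < η) (hη1 : 0 < η1)
include hη hη1

/-- the positive part of the perturbation is largest on the positive axis -/
theorem pert_le {N θ k3 C : ℝ} (hθ : 0 ≤ θ) (hk : 0 ≤ k3) {z : ℂ} (hz : ‖z‖ ≤ 1) :
    pert η η1 N θ k3 C z ≤ -om η z / η + (1 + θ) * (a0 η1 / (η * a0 η)) *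
      (om η1 ((‖z‖ : ℝ) : ℂ) + C * ‖z‖ ^ 4 / N) + k3 * Real.log (1 + ‖z‖ ^ 2 / tip η ^ 2) := by
  have ha := a0_pos hη
  have ha1 := a0_pos hη1
  unfold pert
  have h1 := om_le_abs hη1 hz
  have h2 := mul_le_mul_of_nonneg_left (log_norm_le (tip_pos hη) z) hk
  have h3 : 0 ≤ (1 + θ) * (a0 η1 / (η * a0 η)) := by positivity
  have h4 := mul_le_mul_of_nonneg_left
    (add_le_add h1 (le_refl (C * ‖z‖ ^ 4 / N))) h3
  linarith

/-- **near the real axis the perturbation is negative** -/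
theorem pert_neg (hK : KK η < KK η1) {C : ℝ} (hC : 0 ≤ C) : ∃ N1 : ℝ, 0 < N1 ∧
    ∀ x2 : ℝ, 0 < x2 → x2 ≤ 1 → ∃ m0 φ0 : ℝ, 0 < m0 ∧ 0 < φ0 ∧ ∀ N θ k3 : ℝ, N1 ≤ N → 0 ≤ θ →
      θ ≤ m0 → 0 ≤ k3 → k3 ≤ m0 → ∀ z : ℂ, x2 ≤ ‖z‖ → ‖z‖ ≤ 1 → |z.arg| ≤ φ0 →
      pert η η1 N θ k3 C z ≤ -m0 := by
  obtain ⟨N1, hN1, H⟩ := bR hη hη1 hK hC
  refine ⟨N1, hN1, fun x2 hx2 hx21 => ?_⟩
  obtain ⟨m0, hm0, H⟩ := H x2 hx2 hx21
  obtain ⟨φ0, hφ0, hom⟩ := om_unif hη (ε := η * (m0 / 2)) (by positivity)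
  refine ⟨m0 / 2, φ0, by positivity, hφ0, fun N θ k3 hN hθ0 hθ hk0 hk z hz1 hz2 hz3 => ?_⟩
  have h1 := H N θ k3 hN hθ0 (by linarith) hk0 (by linarith) ‖z‖ hz1 hz2
  have h2 := pert_le hη hη1 (N := N) (C := C) hθ0 hk0 hz2
  have h3 := hom z hz2 hz3
  have h4 : -om η z / η ≤ -om η ((‖z‖ : ℝ) : ℂ) / η + m0 / 2 := by
    rw [div_add' _ _ _ hη.ne', div_le_div_iff_of_pos_right hη]
    linarith
  linarith

end

end Pool.Agent.Lib.MP_0430e4_lc.YE
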